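import Pool.Agent.K9h49.DN.Conv

/-!
# The two main lemmas: greedy restrictions and the number of frequent literals
-/

namespace Pool.Agent.K9h49.DN

open Finset Pool.Agent.Helper91K9.DL

variable {n : ℕ}

/-- The greedy choice of a restriction inside a term. -/
theorem greedy (G : Cube n → Prop) (T : Finset (Fin n × Bool)) :
    ∃ ρ ⊆ T, PP (fun x => G x ∧ satL ρ x) ≤ (3 / 4) ^ ρ.card * PP G ∧
      ∀ l ∈ T, 3 / 4 * PP (fun x => G x ∧ satL ρ x) ≤
        PP (fun x => G x ∧ satL (insert l ρ) x) := by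
  classical
  let 𝒮 : Finset (Finset (Fin n × Bool)) := T.powerset.filter fun ρ =>
    PP (fun x => G x ∧ satL ρ x) ≤ (3 / 4) ^ ρ.card * PP G
  have hne : 𝒮.Nonempty := by
    refine ⟨∅, mem_filter.2 ⟨mem_powerset.2 (empty_subset _), ?_⟩⟩
    rw [card_empty, pow_zero, one_mul]
    exact PP_mono fun x h => h.1
  obtain ⟨ρ, hρ, hmax⟩ := exists_max_image 𝒮 card hne
  obtain ⟨h1, h2⟩ := mem_filter.1 hρ
  refine ⟨ρ, mem_powerset.1 h1, h2, fun l hl => ?_⟩
  by_cases hlρ : l ∈ ρ
  · rw [insert_eq_of_mem hlρ]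
    have := PP_nonneg (fun x => G x ∧ satL ρ x)
    linarith
  · have h3 : insert l ρ ∉ 𝒮 := by
      intro h
      have := hmax _ h
      rw [card_insert_of_notMem hlρ] at this
      omega
    rw [mem_filter] at h3
    have h4 : insert l ρ ∈ T.powerset :=
      mem_powerset.2 (insert_subset hl (mem_powerset.1 h1))
    have h5 : ¬ PP (fun x => G x ∧ satL (insert l ρ) x) ≤ (3 / 4) ^ (insert l ρ).card * PP G :=
      fun h => h3 ⟨h4, h⟩
    rw [card_insert_of_notMem hlρ, pow_succ] at h5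
    push Not at h5
    calc 3 / 4 * PP (fun x => G x ∧ satL ρ x) ≤ 3 / 4 * ((3 / 4) ^ ρ.card * PP G) :=
          mul_le_mul_of_nonneg_left h2 (by norm_num)
      _ = (3 / 4) ^ ρ.card * (3 / 4) * PP G := by ring
      _ ≤ _ := h5.le

/-- The value of a literal. -/
noncomputable def psi (l : Fin n × Bool) (x : Cube n) : ℝ := if x l.1 = l.2 then 1 / 2 else -1 / 2

theorem exp_sum_le (L : Finset (Fin n × Bool)) :
    ∑ x : Cube n, Real.exp (1 / 4 * ∑ l ∈ L, psi l x) ≤ 2 ^ n * Real.exp (L.card / 128) := by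
  classical
  set φ : Fin n → Bool → ℝ := fun t a =>
    (if (t, true) ∈ L then (if a = true then 1 / 2 else -1 / 2) else 0) +
      (if (t, false) ∈ L then (if a = false then 1 / 2 else -1 / 2) else 0) with hφ
  set β : Fin n → ℝ := fun t => if (t, true) ∈ L ∨ (t, false) ∈ L then 1 / 2 else 0 with hβ
  have h1 := Pool.Agent.TH689.LX.hoeff_exp φ β (1 / 4) (fun t => by
      simp only [hβ]; split_ifs <;> norm_num) (fun t a => by
      simp only [hφ, hβ]
      by_cases h1 : (t, true) ∈ L <;> by_cases h2 : (t, false) ∈ L <;> cases a <;>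
        simp [h1, h2] <;> norm_num) (fun t => by
      simp only [hφ, Fintype.sum_bool]
      by_cases h1 : (t, true) ∈ L <;> by_cases h2 : (t, false) ∈ L <;>
        simp [h1, h2] <;> norm_num)
  have h2 : ∀ x : Cube n, ∑ t, φ t (x t) = ∑ l ∈ L, psi l x := by
    intro x
    have e : ∑ l ∈ L, psi l x = ∑ l : Fin n × Bool, if l ∈ L then psi l x else 0 := by
      rw [← sum_filter]
      congr 1
      ext l; simp
    rw [e, Fintype.sum_prod_type]
    refine sum_congr rfl fun t _ => ?_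
    rw [Fintype.sum_bool]
    rfl
  simp only [h2] at h1
  refine h1.trans ?_
  have h3 : (Fintype.card (Fin n → Bool) : ℝ) = 2 ^ n := by simp
  rw [h3]
  refine mul_le_mul_of_nonneg_left (Real.exp_le_exp.2 ?_) (by positivity)
  have h4 : ∑ t, β t ^ 2 ≤ (L.card : ℝ) / 4 := by
    have e : (L.card : ℝ) / 4 = ∑ l : Fin n × Bool, if l ∈ L then (1 / 4 : ℝ) else 0 := by
      rw [← sum_filter]
      have : (univ.filter fun l => l ∈ L) = L := by ext l; simp
      rw [this, sum_const, nsmul_eq_mul]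
      ring
    rw [e, Fintype.sum_prod_type]
    refine sum_le_sum fun t _ => ?_
    rw [Fintype.sum_bool]
    simp only [hβ]
    by_cases h1 : (t, true) ∈ L <;> by_cases h2 : (t, false) ∈ L <;>
      simp [h1, h2] <;> norm_num
  nlinarith

theorem exp_ge (y c : ℝ) : Real.exp c * (1 + y - c) ≤ Real.exp y := by
  have h1 := Real.add_one_le_exp (y - c)
  have h2 : Real.exp y = Real.exp c * Real.exp (y - c) := by rw [← Real.exp_add]; congr 1; ring
  rw [h2]
  refine mul_le_mul_of_nonneg_left ?_ (Real.exp_pos _).le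
  linarith

/-- There are few literals which are frequent in a large set. -/
theorem few (G : Cube n → Prop) (L : Finset (Fin n × Bool))
    (hL : ∀ l ∈ L, 9 / 16 * PP G ≤ PP (fun x => G x ∧ x l.1 = l.2)) :
    Real.exp (L.card / 128) * PP G ≤ 1 := by
  classical
  have h2n : (0 : ℝ) < 2 ^ n := by positivity
  set GS : Finset (Cube n) := univ.filter G with hGS
  have hPG : PP G = (GS.card : ℝ) / 2 ^ n := PP_eq G
  have h1 : ∀ l ∈ L, (GS.card : ℝ) / 16 ≤ ∑ x ∈ GS, psi l x := by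
    intro l hl
    have h := hL l hl
    rw [PP_eq, PP_eq, ← mul_div_assoc, div_le_div_iff_of_pos_right h2n] at h
    have e : ∑ x ∈ GS, psi l x = ((univ.filter fun x => G x ∧ x l.1 = l.2).card : ℝ) -
        GS.card / 2 := by
      have e1 : (univ.filter fun x => G x ∧ x l.1 = l.2) = GS.filter fun x => x l.1 = l.2 := by
        ext x; simp [hGS]
      rw [e1, card_filter]
      push_cast
      have e2 : (GS.card : ℝ) / 2 = ∑ _x ∈ GS, (1 / 2 : ℝ) := by
        rw [sum_const, nsmul_eq_mul]; ring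
      rw [e2, ← sum_sub_distrib]
      refine sum_congr rfl fun x _ => ?_
      unfold psi
      split_ifs <;> norm_num
    rw [e]
    have : (univ.filter G).card = GS.card := rfl
    rw [this] at h
    linarith
  have h2 : (L.card : ℝ) * (GS.card / 16) ≤ ∑ x ∈ GS, ∑ l ∈ L, psi l x := by
    rw [sum_comm, ← nsmul_eq_mul, ← sum_const]
    exact sum_le_sum h1
  set c : ℝ := L.card / 64 with hc
  have h3 : Real.exp c * GS.card ≤ ∑ x : Cube n, Real.exp (1 / 4 * ∑ l ∈ L, psi l x) := by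
    calc Real.exp c * GS.card ≤
        ∑ x ∈ GS, Real.exp c * (1 + 1 / 4 * (∑ l ∈ L, psi l x) - c) := by
          rw [← mul_sum]
          refine mul_le_mul_of_nonneg_left ?_ (Real.exp_pos _).le
          rw [sum_sub_distrib, sum_add_distrib, sum_const, sum_const, nsmul_eq_mul, nsmul_eq_mul,
            ← mul_sum]
          rw [hc]
          nlinarith
      _ ≤ ∑ x ∈ GS, Real.exp (1 / 4 * ∑ l ∈ L, psi l x) := sum_le_sum fun x _ => exp_ge _ _
      _ ≤ _ := sum_le_sum_of_subset_of_nonneg (subset_univ _) fun _ _ _ => (Real.exp_pos _).le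
  have h4 := h3.trans (exp_sum_le L)
  have h5 : Real.exp c = Real.exp (L.card / 128) * Real.exp (L.card / 128) := by
    rw [← Real.exp_add, hc]; congr 1; ring
  rw [h5] at h4
  have h6 : Real.exp (L.card / 128) * (GS.card : ℝ) ≤ 2 ^ n := by
    have hp := Real.exp_pos ((L.card : ℝ) / 128)
    nlinarith
  rw [hPG, ← mul_div_assoc]
  exact (div_le_one h2n).2 h6

/-- The number of subsets of a set of frequent literals. -/
theorem few_two (G : Cube n → Prop) (L : Finset (Fin n × Bool)) (N : ℕ)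
    (hG : 1 ≤ N * PP G) (hL : ∀ l ∈ L, 9 / 16 * PP G ≤ PP (fun x => G x ∧ x l.1 = l.2)) :
    2 ^ L.card ≤ N ^ 128 := by
  have h1 := few G L hL
  have h0 : 0 < PP G := by
    by_contra h
    have h2 : PP G = 0 := le_antisymm (not_lt.1 h) (PP_nonneg G)
    rw [h2, mul_zero] at hG
    norm_num at hG
  have hE := Real.exp_pos ((L.card : ℝ) / 128)
  have h2 : Real.exp (L.card / 128) ≤ N := by
    have h3 : Real.exp (L.card / 128) * PP G ≤ N * PP G := h1.trans hG
    exact le_of_mul_le_mul_right h3 h0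
  have h3 : Real.exp (L.card) ≤ (N : ℝ) ^ 128 := by
    have e : Real.exp (L.card) = Real.exp (L.card / 128) ^ 128 := by
      rw [← Real.exp_nat_mul]; congr 1; push_cast; ring
    rw [e]
    exact pow_le_pow_left₀ hE.le h2 128
  have h4 : (2 : ℝ) ^ L.card ≤ Real.exp (L.card) := by
    have e : Real.exp (L.card) = Real.exp 1 ^ L.card := by
      rw [← Real.exp_nat_mul]; congr 1; ring
    rw [e]
    have := Real.add_one_le_exp (1 : ℝ)
    exact pow_le_pow_left₀ (by norm_num) (by linarith) _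
  exact_mod_cast h4.trans h3

/-- A term which covers a large part of the remaining positive points. -/
theorem exists_term (f g H : Cube n → Prop) (Ts : Finset (Finset (Fin n × Bool))) (s : ℕ)
    (η : ℝ) (hs : 1 ≤ s) (hcard : Ts.card ≤ s) (hg : ∀ x, g x ↔ ∃ T ∈ Ts, satL T x)
    (hη : PP (fun x => f x ∧ ¬ g x) ≤ η) (hM : 2 * η < PP (fun x => f x ∧ ¬ H x)) :
    ∃ T ∈ Ts, PP (fun x => f x ∧ ¬ H x) ≤ 2 * s * PP (fun x => (f x ∧ ¬ H x) ∧ satL T x) := by
  classical
  by_contra hcon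
  push Not at hcon
  set M := PP (fun x => f x ∧ ¬ H x) with hMdef
  have hs' : (1 : ℝ) ≤ s := by exact_mod_cast hs
  have hM0 : 0 ≤ M := PP_nonneg _
  have h1 : M ≤ PP (fun x => ∃ T ∈ Ts, (f x ∧ ¬ H x) ∧ satL T x) + PP (fun x => f x ∧ ¬ g x) := by
    refine le_trans (PP_mono fun x hx => ?_) (PP_or_le _ _)
    by_cases h : g x
    · obtain ⟨T, hT, hTx⟩ := (hg x).1 h
      exact Or.inl ⟨T, hT, hx, hTx⟩
    · exact Or.inr ⟨hx.1, h⟩
  have h2 : PP (fun x => ∃ T ∈ Ts, (f x ∧ ¬ H x) ∧ satL T x) ≤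
      ∑ T ∈ Ts, PP (fun x => (f x ∧ ¬ H x) ∧ satL T x) := PP_exists_le _ _
  have h3 : ∑ T ∈ Ts, PP (fun x => (f x ∧ ¬ H x) ∧ satL T x) ≤ M / 2 := by
    calc ∑ T ∈ Ts, PP (fun x => (f x ∧ ¬ H x) ∧ satL T x) ≤ ∑ _T ∈ Ts, M / (2 * s) := by
          refine sum_le_sum fun T hT => ?_
          rw [le_div_iff₀ (by positivity)]
          have := hcon T hT
          linarith
      _ = Ts.card * (M / (2 * s)) := by rw [sum_const, nsmul_eq_mul]
      _ ≤ s * (M / (2 * s)) := mul_le_mul_of_nonneg_right (by exact_mod_cast hcard) (by positivity)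
      _ = M / 2 := by field_simp
  linarith

theorem card_restr (s k : ℕ) (hs : 1 ≤ s) (h : (1 : ℝ) ≤ 2 * s * (3 / 4) ^ k) :
    k ≤ 3 * Nat.log 2 s + 5 := by
  have h1 : (4 / 3 : ℝ) ^ k ≤ 2 * s := by
    have e : (4 / 3 : ℝ) ^ k * (3 / 4) ^ k = 1 := by rw [← mul_pow]; norm_num
    have hp : (0 : ℝ) < (4 / 3) ^ k := by positivity
    nlinarith
  have h2 : (2 : ℝ) ^ (k / 3) ≤ (4 / 3) ^ k := by
    calc (2 : ℝ) ^ (k / 3) ≤ ((4 / 3) ^ 3) ^ (k / 3) :=
          pow_le_pow_left₀ (by norm_num) (by norm_num) _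
      _ = (4 / 3) ^ (3 * (k / 3)) := by rw [← pow_mul]
      _ ≤ _ := pow_le_pow_right₀ (by norm_num) (Nat.mul_div_le k 3)
  have h3 : 2 ^ (k / 3) ≤ 2 * s := by exact_mod_cast h2.trans h1
  have h4 : k / 3 ≤ Nat.log 2 (2 * s) := Nat.le_log_of_pow_le (by norm_num) h3
  have h5 : Nat.log 2 (2 * s) = Nat.log 2 s + 1 := by
    rw [mul_comm]
    exact Nat.log_mul_base (by norm_num) (by omega)
  omega

end Pool.Agent.K9h49.DN
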