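import Pool.Agent.Helper91K9.DL.Link
import Pool.Agent.K9h49.DN.Core

/-!
# Greedy learning of DNF formulas: the algorithm
-/

namespace Pool.Agent.K9h49.DN

open Pool.Agent.Helper91K9.DL

/-- The number of points of `U` satisfying the term `t`. -/
def cov (U : List (List Bool)) (t : List (ℕ × Bool)) : ℕ := (U.filter fun x => termVal t x).length

/-- The number of points of `U` satisfying the formula `H`. -/
def covD (U : List (List Bool)) (H : List (List (ℕ × Bool))) : ℕ :=
  (U.filter fun x => dnfVal H x).length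

/-- The positive examples. -/
def poss (s : List (List Bool × Bool)) : List (List Bool) := (s.filter fun e => e.2).map (·.1)

/-- The positive examples on which the hypothesis is wrong. -/
def rest (pos : List (List Bool)) (H : List (List (ℕ × Bool))) : List (List Bool) :=
  pos.filter fun x => !(dnfVal H x)

/-- One more literal for restrictions. -/
def rstep (B : ℕ) (ls : List (ℕ × Bool)) (cur : List (List (ℕ × Bool))) :
    List (List (ℕ × Bool)) :=
  if (cur ++ cur.flatMap fun ρ => ls.map (· :: ρ)).length ≤ B then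
    cur ++ cur.flatMap fun ρ => ls.map (· :: ρ) else cur

/-- Short restrictions. -/
def restr (B : ℕ) (ls : List (ℕ × Bool)) (k : ℕ) : List (List (ℕ × Bool)) :=
  (List.range k).foldl (fun cur _ => rstep B ls cur) [[]]

/-- One step of the enumeration of the subsets. -/
def sstep (B : ℕ) (cur : List (List (ℕ × Bool))) (l : ℕ × Bool) : List (List (ℕ × Bool)) :=
  if (cur ++ cur.map (l :: ·)).length ≤ B then cur ++ cur.map (l :: ·) else cur

/-- All subsets of `L`, provided that there are at most `B`. -/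
def subs (B : ℕ) (L : List (ℕ × Bool)) : List (List (ℕ × Bool)) := L.foldl (sstep B) [[]]

/-- The frequent literals under the restriction `ρ`. -/
def frq (U : List (List Bool)) (ls ρ : List (ℕ × Bool)) : List (ℕ × Bool) :=
  ls.filter fun l => decide (5 * cov U ρ ≤ 8 * cov U (l :: ρ))

/-- The candidate terms. -/
def cnds (k B D m : ℕ) (U neg : List (List Bool)) (ls : List (ℕ × Bool)) :
    List (List (ℕ × Bool)) :=
  (restr B ls k).flatMap fun ρ => (subs B (frq U ls ρ)).filter fun t => decide (D * cov neg t ≤ m)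

/-- Comparison of terms. -/
def bstep (U : List (List Bool)) (acc : List (List (ℕ × Bool))) (t : List (ℕ × Bool)) :
    List (List (ℕ × Bool)) :=
  if covD U acc < cov U t then [t] else acc

/-- The best of the terms `cs`, or the empty formula. -/
def best (U : List (List Bool)) (cs : List (List (ℕ × Bool))) : List (List (ℕ × Bool)) :=
  cs.foldl (bstep U) []

/-- One round: a best candidate is added to the hypothesis. -/
def rnd (k B D m : ℕ) (pos neg : List (List Bool)) (ls : List (ℕ × Bool))
    (H : List (List (ℕ × Bool))) : List (List (ℕ × Bool)) :=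
  best (rest pos H) (cnds k B D m (rest pos H) neg ls) ++ H

/-- All rounds. -/
def run (R k B D m : ℕ) (pos neg : List (List Bool)) (ls : List (ℕ × Bool)) :
    List (List (ℕ × Bool)) :=
  (List.range R).foldl (fun H _ => rnd k B D m pos neg ls H) []

/-- The learner with a given list of literals. -/
def lrn (ls : List (ℕ × Bool)) (s a B : ℕ) (S : List (List Bool × Bool)) :
    List (List (ℕ × Bool)) :=
  run (min (8 * (s + 1) * a) S.length) S.length B (128 * (s + 1) * (a * a)) S.length (poss S)
    (negs S) ls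

/-! ### Restrictions -/

theorem restr_succ (B : ℕ) (ls : List (ℕ × Bool)) (k : ℕ) :
    restr B ls (k + 1) = rstep B ls (restr B ls k) := by
  unfold restr
  rw [List.range_succ, List.foldl_append]
  rfl

theorem length_ext (ls : List (ℕ × Bool)) (cur : List (List (ℕ × Bool))) :
    (cur ++ cur.flatMap fun ρ => ls.map (· :: ρ)).length = cur.length * (ls.length + 1) := by
  rw [List.length_append, List.length_flatMap]
  simp only [List.length_map, List.map_const', List.sum_replicate, smul_eq_mul]
  ring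

theorem restr_length (B : ℕ) (ls : List (ℕ × Bool)) (k : ℕ) :
    (restr B ls k).length ≤ (ls.length + 1) ^ k := by
  induction k with
  | zero => simp [restr]
  | succ k ih =>
    rw [restr_succ]
    unfold rstep
    rw [length_ext]
    have h1 : (restr B ls k).length * (ls.length + 1) ≤ (ls.length + 1) ^ (k + 1) := by
      rw [pow_succ]; exact Nat.mul_le_mul_right _ ih
    split_ifs
    · rw [length_ext]; exact h1
    · refine le_trans ?_ h1
      exact Nat.le_mul_of_pos_right _ (by omega)

theorem restr_mono (B : ℕ) (ls : List (ℕ × Bool)) {j k : ℕ} (h : j ≤ k) :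
    ∀ ρ ∈ restr B ls j, ρ ∈ restr B ls k := by
  induction k, h using Nat.le_induction with
  | base => exact fun _ h => h
  | succ k _ ih =>
    intro ρ hρ
    rw [restr_succ]
    unfold rstep
    split_ifs
    · exact List.mem_append_left _ (ih ρ hρ)
    · exact ih ρ hρ

theorem mem_restr' (B : ℕ) (ls : List (ℕ × Bool)) (r : ℕ) (hB : (ls.length + 1) ^ r ≤ B) :
    ∀ ρ : List (ℕ × Bool), (∀ l ∈ ρ, l ∈ ls) → ρ.length ≤ r → ρ ∈ restr B ls r := by
  induction r with
  | zero =>
    intro ρ _ h
    have : ρ = [] := List.length_eq_zero_iff.1 (by omega)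
    subst this
    simp [restr]
  | succ r ih =>
    have h1 : (ls.length + 1) ^ r ≤ B := le_trans (Nat.pow_le_pow_right (by omega) (by omega)) hB
    have h2 := ih h1
    intro ρ hρ hlen
    rw [restr_succ]
    have h3 : ((restr B ls r) ++ (restr B ls r).flatMap fun ρ => ls.map (· :: ρ)).length ≤ B := by
      rw [length_ext]
      refine le_trans ?_ hB
      rw [pow_succ]
      exact Nat.mul_le_mul_right _ (restr_length B ls r)
    unfold rstep
    rw [if_pos h3]
    cases ρ with
    | nil => exact List.mem_append_left _ (h2 [] (by simp) (by simp))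
    | cons l ρ =>
      refine List.mem_append_right _ (List.mem_flatMap.2 ⟨ρ, h2 ρ (fun l' hl' => hρ l' (by simp [hl']))
        (by simpa using hlen), List.mem_map.2 ⟨l, hρ l (by simp), rfl⟩⟩)

theorem mem_restr (B : ℕ) (ls : List (ℕ × Bool)) (k r : ℕ) (hk : r ≤ k)
    (hB : (ls.length + 1) ^ r ≤ B) (ρ : List (ℕ × Bool)) (h1 : ∀ l ∈ ρ, l ∈ ls)
    (h2 : ρ.length ≤ r) : ρ ∈ restr B ls k :=
  restr_mono B ls hk ρ (mem_restr' B ls r hB ρ h1 h2)

theorem restr_lits (B : ℕ) (ls : List (ℕ × Bool)) (k : ℕ) :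
    ∀ ρ ∈ restr B ls k, ρ.length ≤ k ∧ ∀ l ∈ ρ, l ∈ ls := by
  induction k with
  | zero => simp [restr]
  | succ k ih =>
    intro ρ hρ
    rw [restr_succ] at hρ
    unfold rstep at hρ
    split_ifs at hρ
    · rcases List.mem_append.1 hρ with h | h
      · exact ⟨(ih ρ h).1.trans (by omega), (ih ρ h).2⟩
      · obtain ⟨ρ', h1, h2⟩ := List.mem_flatMap.1 h
        obtain ⟨l, hl, rfl⟩ := List.mem_map.1 h2
        refine ⟨by simpa using (ih ρ' h1).1, fun l' hl' => ?_⟩
        rcases List.mem_cons.1 hl' with rfl | hl'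
        · exact hl
        · exact (ih ρ' h1).2 l' hl'
    · exact ⟨(ih ρ hρ).1.trans (by omega), (ih ρ hρ).2⟩

/-! ### Subsets -/

theorem subs_aux (B : ℕ) (p : ℕ × Bool → Bool) : ∀ (L : List (ℕ × Bool))
    (cur : List (List (ℕ × Bool))) (t : List (ℕ × Bool)), cur.length * 2 ^ L.length ≤ B →
    t ∈ cur → ∃ t' ∈ L.foldl (sstep B) cur, ∀ l, l ∈ t' ↔ l ∈ t ∨ (l ∈ L ∧ p l = true) := by
  intro L
  induction L with
  | nil => intro cur t _ ht; exact ⟨t, ht, fun l => by simp⟩
  | cons l₀ L ih =>
    intro cur t hB ht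
    rw [List.foldl_cons]
    have h1 : (cur ++ cur.map (l₀ :: ·)).length = cur.length * 2 := by
      rw [List.length_append, List.length_map]; ring
    have h2 : (cur ++ cur.map (l₀ :: ·)).length ≤ B := by
      rw [h1]
      refine le_trans ?_ hB
      rw [List.length_cons, pow_succ]
      have : 1 ≤ 2 ^ L.length := Nat.one_le_two_pow
      nlinarith
    have h3 : sstep B cur l₀ = cur ++ cur.map (l₀ :: ·) := by
      unfold sstep; rw [if_pos h2]
    rw [h3]
    have h4 : (cur ++ cur.map (l₀ :: ·)).length * 2 ^ L.length ≤ B := by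
      rw [h1]
      refine le_trans (le_of_eq ?_) hB
      rw [List.length_cons, pow_succ]
      ring
    by_cases hp : p l₀ = true
    · obtain ⟨t', h5, h6⟩ := ih _ (l₀ :: t) h4 (List.mem_append_right _
        (List.mem_map.2 ⟨t, ht, rfl⟩))
      refine ⟨t', h5, fun l => ?_⟩
      rw [h6, List.mem_cons, List.mem_cons]
      constructor
      · rintro ((rfl | h) | h)
        · exact Or.inr ⟨Or.inl rfl, hp⟩
        · exact Or.inl h
        · exact Or.inr ⟨Or.inr h.1, h.2⟩
      · rintro (h | ⟨rfl | h, h'⟩)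
        · exact Or.inl (Or.inr h)
        · exact Or.inl (Or.inl rfl)
        · exact Or.inr ⟨h, h'⟩
    · obtain ⟨t', h5, h6⟩ := ih _ t h4 (List.mem_append_left _ ht)
      refine ⟨t', h5, fun l => ?_⟩
      rw [h6, List.mem_cons]
      constructor
      · rintro (h | h)
        · exact Or.inl h
        · exact Or.inr ⟨Or.inr h.1, h.2⟩
      · rintro (h | ⟨rfl | h, h'⟩)
        · exact Or.inl h
        · exact absurd h' hp
        · exact Or.inr ⟨h, h'⟩

theorem mem_subs (B : ℕ) (L : List (ℕ × Bool)) (hB : 2 ^ L.length ≤ B) (p : ℕ × Bool → Bool) :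
    ∃ t ∈ subs B L, ∀ l, l ∈ t ↔ l ∈ L ∧ p l = true := by
  obtain ⟨t, h1, h2⟩ := subs_aux B p L [[]] [] (by simpa using hB) (by simp)
  exact ⟨t, h1, fun l => by rw [h2]; simp⟩

theorem subs_inv (B : ℕ) (P : ℕ × Bool → Prop) : ∀ (L : List (ℕ × Bool))
    (cur : List (List (ℕ × Bool))) (c : ℕ), (∀ l ∈ L, P l) → cur.length ≤ max 1 B →
    (∀ t ∈ cur, t.length ≤ c ∧ ∀ l ∈ t, P l) →
    (L.foldl (sstep B) cur).length ≤ max 1 B ∧
      ∀ t ∈ L.foldl (sstep B) cur, t.length ≤ c + L.length ∧ ∀ l ∈ t, P l := by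
  intro L
  induction L with
  | nil => intro cur c _ h1 h2; exact ⟨h1, fun t ht => by simpa using h2 t ht⟩
  | cons l₀ L ih =>
    intro cur c hL h1 h2
    rw [List.foldl_cons]
    have key : (sstep B cur l₀).length ≤ max 1 B ∧
        ∀ t ∈ sstep B cur l₀, t.length ≤ c + 1 ∧ ∀ l ∈ t, P l := by
      unfold sstep
      split_ifs with h
      · refine ⟨h.trans (le_max_right _ _), fun t ht => ?_⟩
        rcases List.mem_append.1 ht with ht | ht
        · exact ⟨(h2 t ht).1.trans (by omega), (h2 t ht).2⟩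
        · obtain ⟨t', ht', rfl⟩ := List.mem_map.1 ht
          refine ⟨by simpa using (h2 t' ht').1, fun l hl => ?_⟩
          rcases List.mem_cons.1 hl with rfl | hl
          · exact hL l (by simp)
          · exact (h2 t' ht').2 l hl
      · exact ⟨h1, fun t ht => ⟨(h2 t ht).1.trans (by omega), (h2 t ht).2⟩⟩
    obtain ⟨h3, h4⟩ := ih _ (c + 1) (fun l hl => hL l (by simp [hl])) key.1 key.2
    refine ⟨h3, fun t ht => ⟨(h4 t ht).1.trans ?_, (h4 t ht).2⟩⟩
    simp only [List.length_cons]
    omega

theorem subs_lits (B : ℕ) (L : List (ℕ × Bool)) : ∀ t ∈ subs B L, ∀ l ∈ t, l ∈ L := by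
  intro t ht
  exact ((subs_inv B (fun l => l ∈ L) L [[]] 0 (fun _ h => h) (by simp) (by simp)).2 t ht).2

theorem cnds_lits {k B D m : ℕ} {U neg : List (List Bool)} {ls : List (ℕ × Bool)}
    {t : List (ℕ × Bool)} (ht : t ∈ cnds k B D m U neg ls) :
    (∀ l ∈ t, l ∈ ls) ∧ D * cov neg t ≤ m := by
  unfold cnds at ht
  obtain ⟨ρ, _, h⟩ := List.mem_flatMap.1 ht
  rw [List.mem_filter] at h
  refine ⟨fun l hl => ?_, by simpa using h.2⟩
  have := subs_lits B _ t h.1 l hl
  unfold frq at this
  exact List.mem_of_mem_filter this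

/-! ### The best candidate -/

theorem cov_one (U : List (List Bool)) (t : List (ℕ × Bool)) : covD U [t] = cov U t := by
  unfold covD cov dnfVal
  congr 1
  refine List.filter_congr fun x _ => ?_
  simp

theorem best_aux (U : List (List Bool)) (P : List (ℕ × Bool) → Prop) :
    ∀ (cs acc : List (List (ℕ × Bool))), (acc = [] ∨ ∃ t, P t ∧ acc = [t]) → (∀ t ∈ cs, P t) →
    (cs.foldl (bstep U) acc = [] ∨ ∃ t, P t ∧ cs.foldl (bstep U) acc = [t]) ∧
      covD U acc ≤ covD U (cs.foldl (bstep U) acc) ∧
      ∀ t ∈ cs, cov U t ≤ covD U (cs.foldl (bstep U) acc) := by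
  intro cs
  induction cs with
  | nil => intro acc h _; exact ⟨h, le_rfl, by simp⟩
  | cons t₀ cs ih =>
    intro acc h hP
    rw [List.foldl_cons]
    have h1 : bstep U acc t₀ = [] ∨ ∃ t, P t ∧ bstep U acc t₀ = [t] := by
      unfold bstep
      split_ifs
      · exact Or.inr ⟨t₀, hP t₀ (by simp), rfl⟩
      · exact h
    have h2 : covD U acc ≤ covD U (bstep U acc t₀) ∧ cov U t₀ ≤ covD U (bstep U acc t₀) := by
      unfold bstep
      split_ifs with hlt
      · rw [cov_one]; exact ⟨hlt.le, le_rfl⟩
      · exact ⟨le_rfl, not_lt.1 hlt⟩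
    obtain ⟨h3, h4, h5⟩ := ih _ h1 (fun t ht => hP t (by simp [ht]))
    refine ⟨h3, h2.1.trans h4, fun t ht => ?_⟩
    rcases List.mem_cons.1 ht with rfl | ht
    · exact h2.2.trans h4
    · exact h5 t ht

theorem best_spec (U : List (List Bool)) (cs : List (List (ℕ × Bool))) :
    (best U cs = [] ∨ ∃ t ∈ cs, best U cs = [t]) ∧ ∀ t ∈ cs, cov U t ≤ covD U (best U cs) := by
  obtain ⟨h1, _, h2⟩ := best_aux U (fun t => t ∈ cs) cs [] (Or.inl rfl) (fun _ h => h)
  exact ⟨h1, h2⟩

theorem run_succ (R k B D m : ℕ) (pos neg : List (List Bool)) (ls : List (ℕ × Bool)) :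
    run (R + 1) k B D m pos neg ls = rnd k B D m pos neg ls (run R k B D m pos neg ls) := by
  unfold run
  rw [List.range_succ, List.foldl_append]
  rfl

end Pool.Agent.K9h49.DN
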