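import Pool.Agent.Helper91K9.DL.Indep
import Pool.Agent.TH689.LXHoeff

/-!
# Uniform convergence of frequencies for a finite family of events
-/

namespace Pool.Agent.K9h49.DN

open Finset Pool.Agent.Helper91K9.DL

variable {n : ℕ}

/-- The number of sample points with the property `p`. -/
noncomputable def fr {m : ℕ} (X : Fin m → Cube n) (p : Cube n → Prop) : ℝ := by
  classical exact ((univ.filter fun j => p (X j)).card : ℝ)

theorem fr_eq {m : ℕ} (X : Fin m → Cube n) (p : Cube n → Prop) [DecidablePred p] :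
    fr X p = ((univ.filter fun j => p (X j)).card : ℝ) := by
  unfold fr; congr

theorem fr_sum {m : ℕ} (X : Fin m → Cube n) (p : Cube n → Prop) [DecidablePred p] :
    fr X p = ∑ j, if p (X j) then (1 : ℝ) else 0 := by
  rw [fr_eq, card_filter]
  push_cast
  rfl

theorem PP_sum (p : Cube n → Prop) [DecidablePred p] :
    PP p = (∑ x, if p x then (1 : ℝ) else 0) / 2 ^ n := by
  rw [PP_eq, card_filter]
  push_cast
  rfl

open Classical in
/-- Almost all samples have good frequencies for all events of a finite family. -/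
theorem conv {ι : Type} [Fintype ι] (p : ι → Cube n → Prop) (m b : ℕ) (τ c : ℝ) (hb : 1 ≤ b)
    (hτ : 0 < τ) (hc : (Fintype.card ι : ℝ) ≤ Real.exp c) (hm : c + 2 * b ≤ m * τ ^ 2 / 2)
    (hm0 : 0 < m) :
    (1 - 1 / (b : ℝ)) * (Fintype.card (Fin m → Cube n) : ℝ) ≤
      ((univ.filter fun X : Fin m → Cube n =>
        ∀ i, |fr X (p i) - m * PP (p i)| ≤ m * τ).card : ℝ) := by
  have hb0 : (1 : ℝ) ≤ b := by exact_mod_cast hb
  have hm0 : (0 : ℝ) < m := by exact_mod_cast hm0
  set T : ℝ := (Fintype.card (Fin m → Cube n) : ℝ) with hT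
  have hT0 : 0 ≤ T := Nat.cast_nonneg _
  -- one event
  have hone : ∀ q : ι,
      ((univ.filter fun X : Fin m → Cube n =>
        m * τ < |fr X (p q) - m * PP (p q)|).card : ℝ) ≤
        2 * Real.exp (-(c + 2 * b)) * T := by
    intro q
    set φ : Fin m → Cube n → ℝ := fun _ x => (if p q x then (1 : ℝ) else 0) - PP (p q) with hφ
    set l : ℝ := Real.sqrt m * τ with hl
    have hl0 : 0 ≤ l := by positivity
    have h1 := Pool.Agent.TH689.LX.hoeff_tail φ (fun _ => 1) (Real.sqrt m) l hl0
      (fun _ => by norm_num) (fun t x => by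
        simp only [hφ]
        have h2 := PP_nonneg (p q)
        have h3 := PP_le_one (p q)
        rw [abs_le]
        split_ifs <;> constructor <;> linarith) (fun t => by
        simp only [hφ]
        rw [sum_sub_distrib, sum_const, card_univ, PP_sum]
        simp only [Fintype.card_fun, Fintype.card_bool, Fintype.card_fin, nsmul_eq_mul]
        push_cast
        field_simp
        simp) (by positivity) (by
        rw [sum_const, card_univ, Fintype.card_fin, nsmul_eq_mul,
          Real.sq_sqrt hm0.le]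
        linarith)
    have h2 : l * Real.sqrt m = m * τ := by
      rw [hl]
      have := Real.mul_self_sqrt hm0.le
      calc Real.sqrt m * τ * Real.sqrt m = (Real.sqrt m * Real.sqrt m) * τ := by ring
        _ = _ := by rw [this]
    have h3 : ∀ X : Fin m → Cube n, ∑ t, φ t (X t) = fr X (p q) - m * PP (p q) := by
      intro X
      simp only [hφ]
      rw [sum_sub_distrib, sum_const, card_univ, Fintype.card_fin, nsmul_eq_mul, fr_sum]
    rw [h2] at h1
    simp only [h3] at h1
    refine h1.trans ?_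
    refine mul_le_mul_of_nonneg_right ?_ hT0
    refine mul_le_mul_of_nonneg_left ?_ (by norm_num)
    refine Real.exp_le_exp.2 ?_
    have h4 : l ^ 2 = m * τ ^ 2 := by
      rw [hl, mul_pow, Real.sq_sqrt hm0.le]
    rw [h4]
    linarith
  -- union bound
  have hbad : ((univ.filter fun X : Fin m → Cube n => ¬ ∀ i, |fr X (p i) - m * PP (p i)| ≤ m * τ).card
      : ℝ) ≤ 1 / b * T := by
    have h1 : (univ.filter fun X : Fin m → Cube n => ¬ ∀ i, |fr X (p i) - m * PP (p i)| ≤ m * τ) ⊆
        (univ : Finset ι).biUnion fun q =>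
          univ.filter fun X : Fin m → Cube n =>
            m * τ < |fr X (p q) - m * PP (p q)| := by
      intro X hX
      have h2 := (mem_filter.1 hX).2
      push Not at h2
      obtain ⟨q, h3⟩ := h2
      exact mem_biUnion.2 ⟨q, mem_univ _, mem_filter.2 ⟨mem_univ _, h3⟩⟩
    have h2 : ((univ.filter fun X : Fin m → Cube n =>
        ¬ ∀ i, |fr X (p i) - m * PP (p i)| ≤ m * τ).card : ℝ) ≤
        ∑ q : ι, 2 * Real.exp (-(c + 2 * b)) * T := by
      calc _ ≤ (((univ : Finset ι).biUnion fun q =>
          univ.filter fun X : Fin m → Cube n =>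
            m * τ < |fr X (p q) - m * PP (p q)|).card : ℝ) := by
              exact_mod_cast card_le_card h1
        _ ≤ ((∑ q : ι, (univ.filter fun X : Fin m → Cube n =>
            m * τ < |fr X (p q) - m * PP (p q)|).card : ℕ) : ℝ) := by
              exact_mod_cast card_biUnion_le
        _ ≤ _ := by
              push_cast
              exact sum_le_sum fun q _ => hone q
    rw [sum_const, card_univ, nsmul_eq_mul] at h2
    refine h2.trans ?_
    rw [← mul_assoc]
    refine mul_le_mul_of_nonneg_right ?_ hT0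
    have h4 : Real.exp (-(c + 2 * b)) = Real.exp (-c) * Real.exp (-(2 * (b : ℝ))) := by
      rw [← Real.exp_add]
      congr 1
      ring
    have h5 : (Fintype.card ι : ℝ) * Real.exp (-c) ≤ 1 := by
      rw [Real.exp_neg, ← div_eq_mul_inv]
      exact (div_le_one (Real.exp_pos _)).2 hc
    have h7 : 2 * Real.exp (-(2 * (b : ℝ))) ≤ 1 / b := by
      rw [Real.exp_neg, ← div_eq_mul_inv, div_le_div_iff₀ (Real.exp_pos _) (by linarith)]
      have := Real.add_one_le_exp (2 * (b : ℝ))
      linarith
    calc (Fintype.card ι : ℝ) * (2 * Real.exp (-(c + 2 * b))) =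
          ((Fintype.card ι : ℝ) * Real.exp (-c)) * (2 * Real.exp (-(2 * (b : ℝ)))) := by
            rw [h4]; ring
      _ ≤ 1 * (2 * Real.exp (-(2 * (b : ℝ)))) := mul_le_mul_of_nonneg_right h5 (by positivity)
      _ ≤ _ := by rw [one_mul]; exact h7
  have hsum : ((univ.filter fun X : Fin m → Cube n =>
      ∀ i, |fr X (p i) - m * PP (p i)| ≤ m * τ).card : ℝ) +
      ((univ.filter fun X : Fin m → Cube n =>
        ¬ ∀ i, |fr X (p i) - m * PP (p i)| ≤ m * τ).card : ℝ) = T := by
    have := card_filter_add_card_filter_not (s := (univ : Finset (Fin m → Cube n)))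
      (fun X => ∀ i, |fr X (p i) - m * PP (p i)| ≤ m * τ)
    rw [card_univ] at this
    rw [hT]
    exact_mod_cast this
  have : (1 - 1 / (b : ℝ)) * T = T - 1 / b * T := by ring
  rw [this]
  linarith

/-! ### The events of the analysis -/

/-- A list of at most `R` terms. -/
abbrev Hyp (n R : ℕ) := Fin R → Option (Finset (Fin n × Bool))

/-- The event that `f` has the value `σ`, that no term of `h` is satisfied and that the term `ρ` is
satisfied. -/
def Reg {R : ℕ} (f : Cube n → Prop) (q : Bool × Hyp n R × Finset (Fin n × Bool)) (x : Cube n) :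
    Prop :=
  (if q.1 = true then f x else ¬ f x) ∧ (∀ i U, q.2.1 i = some U → ¬ satL U x) ∧ satL q.2.2 x

/-- A good sample. -/
def GoodS {m : ℕ} (X : Fin m → Cube n) (f : Cube n → Prop) (R : ℕ) (τ : ℝ) : Prop :=
  ∀ q : Bool × Hyp n R × Finset (Fin n × Bool), |fr X (Reg f q) - m * PP (Reg f q)| ≤ m * τ

theorem card_Q (n R : ℕ) : (Fintype.card (Bool × Hyp n R × Finset (Fin n × Bool)) : ℝ) ≤
    Real.exp ((R + 1) * (2 * n + 1)) := by
  have h2 : (2 : ℝ) ≤ Real.exp 1 := by
    have := Real.add_one_le_exp (1 : ℝ); linarith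
  have h4 : (4 : ℝ) ^ n ≤ Real.exp (2 * n) := by
    have e : Real.exp (2 * (n : ℝ)) = (Real.exp 2) ^ n := by
      rw [← Real.exp_nat_mul]; congr 1; ring
    rw [e]
    refine pow_le_pow_left₀ (by norm_num) ?_ n
    have e2 : Real.exp 2 = Real.exp 1 * Real.exp 1 := by rw [← Real.exp_add]; norm_num
    rw [e2]
    nlinarith
  have h1 : (1 : ℝ) ≤ 4 ^ n := one_le_pow₀ (by norm_num)
  have h5 : (4 : ℝ) ^ n + 1 ≤ Real.exp (2 * n + 1) := by
    rw [Real.exp_add]
    calc (4 : ℝ) ^ n + 1 ≤ 4 ^ n * 2 := by linarith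
      _ ≤ _ := mul_le_mul h4 h2 (by norm_num) (Real.exp_pos _).le
  have h6 : 2 * (4 : ℝ) ^ n ≤ Real.exp (2 * n + 1) := by
    rw [Real.exp_add, mul_comm]
    exact mul_le_mul h4 h2 (by norm_num) (Real.exp_pos _).le
  have hc : (Fintype.card (Finset (Fin n × Bool)) : ℝ) = 4 ^ n := by
    rw [Fintype.card_finset, Fintype.card_prod, Fintype.card_fin, Fintype.card_bool]
    push_cast
    rw [show (4 : ℝ) = 2 ^ 2 by norm_num, ← pow_mul, mul_comm]
  rw [Fintype.card_prod, Fintype.card_prod, Fintype.card_fun, Fintype.card_option,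
    Fintype.card_bool, Fintype.card_fin]
  push_cast
  rw [hc]
  have e3 : Real.exp (((R : ℝ) + 1) * (2 * n + 1)) = (Real.exp (2 * n + 1)) ^ R *
      Real.exp (2 * n + 1) := by
    rw [← Real.exp_nat_mul, ← Real.exp_add]
    congr 1
    ring
  rw [e3]
  calc 2 * (((4 : ℝ) ^ n + 1) ^ R * 4 ^ n) = (4 ^ n + 1) ^ R * (2 * 4 ^ n) := by ring
    _ ≤ _ := mul_le_mul (pow_le_pow_left₀ (by positivity) h5 R) h6 (by positivity) (by positivity)

open Classical in
theorem samp (m b R : ℕ) (f : Cube n → Prop) (τ : ℝ) (hb : 1 ≤ b) (hτ : 0 < τ)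
    (hm : ((R : ℝ) + 1) * (2 * n + 1) + 2 * b ≤ m * τ ^ 2 / 2) :
    (1 - 1 / (b : ℝ)) * (Fintype.card (Fin m → Cube n) : ℝ) ≤
      ((univ.filter fun X : Fin m → Cube n => GoodS X f R τ).card : ℝ) := by
  have hm0 : 0 < m := by
    rcases Nat.eq_zero_or_pos m with rfl | h
    · have h1 : (1 : ℝ) ≤ b := by exact_mod_cast hb
      have h2 : (0 : ℝ) ≤ ((R : ℝ) + 1) * (2 * n + 1) := by positivity
      simp only [CharP.cast_eq_zero, zero_mul, zero_div] at hm
      linarith
    · exact h
  have h := conv (fun q : Bool × Hyp n R × Finset (Fin n × Bool) => Reg f q) m b τ _ hb hτ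
    (card_Q n R) hm hm0
  refine h.trans ?_
  refine Nat.cast_le.2 (card_le_card fun X hX => ?_)
  simp only [mem_filter, mem_univ, true_and] at hX ⊢
  exact hX

end Pool.Agent.K9h49.DN
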