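import Pool.Agent.K9h49.DN.Round
import Pool.Agent.Helper91K9.DL.Target

/-!
# The algorithm succeeds on good samples
-/

namespace Pool.Agent.K9h49.DN

open Finset Pool.Agent.Helper91K9.DL

variable {n m : ℕ}

section

variable {F : List (List (ℕ × Bool))} {X : Fin m → Cube n}
  {ls : List (ℕ × Bool)} {Ts : Finset (Finset (Fin n × Bool))} {g : Cube n → Prop}
  {s a k B R : ℕ} {τ : ℝ}

theorem Sit.run_inv (h : Sit n m F X ls Ts g s a k B R τ) : ∀ j ≤ R,
    ∀ H, H = run j k B (128 * s * (a * a)) m (poss (smp F X)) (negs (smp F X)) ls →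
    H.length ≤ j ∧ (∀ t ∈ H, ∀ l ∈ t, l.1 < n) ∧
    (∀ t ∈ H, PP (fun x => ¬ ff n F x ∧ satL (UU n t) x) ≤ 3 * τ) ∧
    (2 * a * PP (fun x => ff n F x ∧ ¬ ff n H x) ≤ 1 ∨
      PP (fun x => ff n F x ∧ ¬ ff n H x) ≤ (1 - 1 / (4 * s)) ^ j) := by
  have hs : (1 : ℝ) ≤ s := by exact_mod_cast h.hs
  have hfrac : 0 ≤ 1 - 1 / (4 * (s : ℝ)) := by
    rw [sub_nonneg, div_le_one (by positivity)]; linarith
  have hfrac' : 1 - 1 / (4 * (s : ℝ)) ≤ 1 := by
    have : 0 ≤ 1 / (4 * (s : ℝ)) := by positivity
    linarith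
  intro j
  induction j with
  | zero =>
    intro _ H hH
    subst hH
    simp only [run, List.range_zero, List.foldl_nil]
    exact ⟨le_rfl, by simp, by simp, Or.inr (by rw [pow_zero]; exact PP_le_one _)⟩
  | succ j ih =>
    intro hj H hH
    obtain ⟨h1, h2, h3, h4⟩ := ih (by omega) _ rfl
    rw [run_succ] at hH
    obtain ⟨h5, h6, h7, h8⟩ := h.round _ (h1.trans (by omega)) h2 H hH
    refine ⟨by omega, h6, fun t ht => ?_, ?_⟩
    · rcases h7 t ht with h9 | h9
      · exact h3 t h9
      · exact h9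
    · rcases h8 with h8 | h8
      · exact Or.inl h8
      · rcases h4 with h4 | h4
        · left
          refine le_trans (mul_le_mul_of_nonneg_left (h8.trans ?_) (by positivity)) h4
          exact mul_le_of_le_one_left (PP_nonneg _) hfrac'
        · right
          rw [pow_succ, mul_comm ((1 - 1 / (4 * (s : ℝ))) ^ j)]
          exact h8.trans (mul_le_mul_of_nonneg_left h4 hfrac)

theorem PP_list (p : Cube n → Prop) (c : ℝ) : ∀ H : List (List (ℕ × Bool)),
    (∀ t ∈ H, PP (fun x => p x ∧ satL (UU n t) x) ≤ c) →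
    PP (fun x => p x ∧ ∃ t ∈ H, satL (UU n t) x) ≤ H.length * c := by
  intro H
  induction H with
  | nil =>
    intro _
    have : PP (fun x : Cube n => p x ∧ ∃ t ∈ ([] : List (List (ℕ × Bool))), satL (UU n t) x) =
        PP (fun _ : Cube n => False) := PP_congr fun x => by simp
    rw [this]
    simp [PP]
  | cons t H ih =>
    intro h
    have h1 := ih fun t' ht' => h t' (List.mem_cons_of_mem _ ht')
    have h2 := h t (by simp)
    have h3 : PP (fun x => p x ∧ ∃ t' ∈ t :: H, satL (UU n t') x) ≤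
        PP (fun x => p x ∧ satL (UU n t) x) + PP (fun x => p x ∧ ∃ t ∈ H, satL (UU n t) x) := by
      refine le_trans (PP_mono fun x hx => ?_) (PP_or_le _ _)
      obtain ⟨hx, t', ht', hs⟩ := hx
      rcases List.mem_cons.1 ht' with rfl | ht'
      · exact Or.inl ⟨hx, hs⟩
      · exact Or.inr ⟨hx, t', ht', hs⟩
    rw [List.length_cons]
    push_cast
    linarith

theorem err_eq (H F : List (List (ℕ × Bool))) :
    err n H F = PP (fun x : Cube n => dnfVal H (List.ofFn x) ≠ dnfVal F (List.ofFn x)) := by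
  unfold err
  rw [PP_eq]

/-- The hypothesis after all rounds has small error. -/
theorem Sit.final (h : Sit n m F X ls Ts g s a k B R τ) (hR : R = 8 * s * a) :
    err n (run R k B (128 * s * (a * a)) m (poss (smp F X)) (negs (smp F X)) ls) F ≤ 1 / a := by
  classical
  have hs : (1 : ℝ) ≤ s := by exact_mod_cast h.hs
  have ha : (1 : ℝ) ≤ a := by exact_mod_cast h.ha
  have hτ := h.hτ
  have hτ0 := h.τ_pos
  obtain ⟨h1, h2, h3, h4⟩ := h.run_inv R le_rfl _ rfl
  set H := run R k B (128 * s * (a * a)) m (poss (smp F X)) (negs (smp F X)) ls with hH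
  have h5 : PP (fun x => ff n F x ∧ ¬ ff n H x) ≤ 1 / (2 * a) := by
    rw [le_div_iff₀ (by positivity)]
    rcases h4 with h4 | h4
    · linarith
    · have h6 : (1 - 1 / (4 * (s : ℝ))) ^ R ≤ Real.exp (-(2 * a)) := by
        have h7 : 1 - 1 / (4 * (s : ℝ)) ≤ Real.exp (-(1 / (4 * s))) := by
          have := Real.add_one_le_exp (-(1 / (4 * (s : ℝ))))
          linarith
        have h8 : 0 ≤ 1 - 1 / (4 * (s : ℝ)) := by
          rw [sub_nonneg, div_le_one (by positivity)]; linarith
        refine (pow_le_pow_left₀ h8 h7 R).trans (le_of_eq ?_)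
        rw [← Real.exp_nat_mul, hR]
        congr 1
        push_cast
        field_simp
        ring
      have h9 : Real.exp (-(2 * (a : ℝ))) * (2 * a + 1) ≤ 1 := by
        rw [Real.exp_neg, inv_mul_le_iff₀ (Real.exp_pos _), mul_one]
        exact Real.add_one_le_exp _
      have h10 := Real.exp_pos (-(2 * (a : ℝ)))
      have h11 := h4.trans h6
      have h12 : PP (fun x => ff n F x ∧ ¬ ff n H x) * (2 * a) ≤
          Real.exp (-(2 * (a : ℝ))) * (2 * a) := mul_le_mul_of_nonneg_right h11 (by positivity)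
      linarith
  have h6 : PP (fun x => ¬ ff n F x ∧ ff n H x) ≤ 1 / (2 * a) := by
    have h7 := PP_list (fun x => ¬ ff n F x) (3 * τ) H h3
    have h8 : PP (fun x => ¬ ff n F x ∧ ff n H x) =
        PP (fun x => ¬ ff n F x ∧ ∃ t ∈ H, satL (UU n t) x) :=
      PP_congr fun x => by rw [ff_iff H h2]
    rw [h8]
    refine h7.trans ?_
    have h9 : (H.length : ℝ) ≤ 8 * s * a := by
      have : (H.length : ℝ) ≤ R := by exact_mod_cast h1
      rw [hR] at this
      push_cast at this
      exact this
    calc (H.length : ℝ) * (3 * τ) ≤ 8 * s * a * (3 * τ) :=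
          mul_le_mul_of_nonneg_right h9 (by positivity)
      _ ≤ 1 / (2 * a) := by
          rw [le_div_iff₀ (by positivity)]
          have : 8 * (s : ℝ) * a * (3 * τ) * (2 * a) = 48 / 256 * (256 * (s : ℝ) * (a * a) * τ) := by
            ring
          rw [this, hτ]
          norm_num
  rw [err_eq]
  have h7 : PP (fun x : Cube n => dnfVal H (List.ofFn x) ≠ dnfVal F (List.ofFn x)) ≤
      PP (fun x => ff n F x ∧ ¬ ff n H x) + PP (fun x => ¬ ff n F x ∧ ff n H x) := by
    refine le_trans (PP_mono fun x hx => ?_) (PP_or_le _ _)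
    unfold ff
    cases h8 : dnfVal H (List.ofFn x) <;> cases h9 : dnfVal F (List.ofFn x)
    · exact absurd (h8.trans h9.symm) hx
    · left; simp
    · right; simp
    · exact absurd (h8.trans h9.symm) hx
  have h8 : 1 / (2 * (a : ℝ)) + 1 / (2 * a) = 1 / a := by
    field_simp
    norm_num
  linarith

end

theorem nvars_smp (F : List (List (ℕ × Bool))) (X : Fin m → Cube n) (hm : 0 < m) :
    nvars (smp F X) = n := by
  obtain ⟨m, rfl⟩ : ∃ m', m = m' + 1 := ⟨m - 1, by omega⟩
  unfold nvars smp
  rw [List.ofFn_succ]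
  simp

theorem lits_lt (n : ℕ) : ∀ l ∈ lits n, l.1 < n := by
  intro l hl
  unfold lits at hl
  obtain ⟨j, hj, h⟩ := List.mem_flatMap.1 hl
  have := List.mem_range.1 hj
  simp only [List.mem_cons, List.not_mem_nil, or_false] at h
  rcases h with rfl | rfl <;> exact this

theorem mem_lits (n : ℕ) (l : ℕ × Bool) (h : l.1 < n) : l ∈ lits n := by
  unfold lits
  refine List.mem_flatMap.2 ⟨l.1, List.mem_range.2 h, ?_⟩
  rcases l with ⟨v, _ | _⟩ <;> simp

theorem lits_succ (n : ℕ) : lits (n + 1) = lits n ++ [(n, true), (n, false)] := by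
  unfold lits
  rw [List.range_succ, List.flatMap_append]
  simp

theorem lits_length (n : ℕ) : (lits n).length = 2 * n := by
  induction n with
  | zero => rfl
  | succ n ih => rw [lits_succ, List.length_append, ih]; simp; ring

theorem lits_nodup (n : ℕ) : (lits n).Nodup := by
  induction n with
  | zero => simp [lits]
  | succ n ih =>
    rw [lits_succ, List.nodup_append]
    refine ⟨ih, by simp, fun x hx y hy hxy => ?_⟩
    have h1 := lits_lt n x hx
    subst hxy
    simp only [List.mem_cons, List.not_mem_nil, or_false] at hy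
    rcases hy with rfl | rfl <;> simp at h1

end Pool.Agent.K9h49.DN
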