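import Pool.Agent.K9h49.DN.Alg
import Pool.Agent.Helper91K9.DL.Poly

/-!
# The algorithm runs in polynomial time
-/

namespace Pool.Agent.K9h49.DN

open Pool.Agent.NPC Pool.Agent.Helper91K9.DL

theorem restr_len (B : ℕ) (ls : List (ℕ × Bool)) (k : ℕ) : (restr B ls k).length ≤ max 1 B := by
  induction k with
  | zero => simp [restr]
  | succ k ih =>
    rw [restr_succ]
    unfold rstep
    split_ifs with h
    · exact h.trans (le_max_right _ _)
    · exact ih

/-- A bound for the size of a list of terms. -/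
theorem sz_terms (ls : List (ℕ × Bool)) (H : List (List (ℕ × Bool))) (p q : ℕ)
    (h1 : H.length ≤ p) (h2 : ∀ t ∈ H, t.length ≤ q ∧ ∀ l ∈ t, l ∈ ls) :
    sz H ≤ p * (q * (sz ls + 1) + 2) + 1 := by
  have h3 := sz_le_length_mul H (q * (sz ls + 1) + 1) (by
    intro t ht
    obtain ⟨h4, h5⟩ := h2 t ht
    refine (sz_le_length_mul t (sz ls) fun l hl => (sz_le_of_mem (h5 l hl)).le).trans ?_
    exact Nat.add_le_add_right (Nat.mul_le_mul_right _ h4) 1)
  refine h3.trans (Nat.add_le_add_right ?_ 1)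
  exact Nat.mul_le_mul h1 (by omega)

section

variable {α : Type} [TEnc α]

theorem cov_poly {U : α → List (List Bool)} {t : α → List (ℕ × Bool)} (hU : Poly U)
    (ht : Poly t) : Poly (fun a => cov (U a) (t a)) :=
  NPC.Poly.length (NPC.Poly.filter (p := fun a x => termVal (t a) x) hU
    (termVal_poly (ht.comp (NPC.Poly.fst NPC.Poly.id)) (NPC.Poly.snd NPC.Poly.id)))

theorem dnfVal_poly {H : α → List (List (ℕ × Bool))} {x : α → List Bool} (hH : Poly H)
    (hx : Poly x) : Poly (fun a => dnfVal (H a) (x a)) :=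
  NPC.Poly.any (p := fun a t => termVal t (x a)) hH
    (termVal_poly (NPC.Poly.snd NPC.Poly.id) (hx.comp (NPC.Poly.fst NPC.Poly.id)))

theorem covD_poly {U : α → List (List Bool)} {H : α → List (List (ℕ × Bool))} (hU : Poly U)
    (hH : Poly H) : Poly (fun a => covD (U a) (H a)) :=
  NPC.Poly.length (NPC.Poly.filter (p := fun a x => dnfVal (H a) x) hU
    (dnfVal_poly (hH.comp (NPC.Poly.fst NPC.Poly.id)) (NPC.Poly.snd NPC.Poly.id)))

theorem poss_poly : Poly poss :=
  NPC.Poly.map (F := fun _ (e : List Bool × Bool) => e.1)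
    (NPC.Poly.filter (p := fun _ (e : List Bool × Bool) => e.2) NPC.Poly.id
      (NPC.Poly.snd (NPC.Poly.snd NPC.Poly.id))) (NPC.Poly.fst (NPC.Poly.snd NPC.Poly.id))

theorem rest_poly {pos : α → List (List Bool)} {H : α → List (List (ℕ × Bool))} (hp : Poly pos)
    (hH : Poly H) : Poly (fun a => rest (pos a) (H a)) :=
  NPC.Poly.filter (p := fun a x => !(dnfVal (H a) x)) hp
    (NPC.Poly.not (dnfVal_poly (hH.comp (NPC.Poly.fst NPC.Poly.id)) (NPC.Poly.snd NPC.Poly.id)))

theorem rstep_poly {B : α → ℕ} {ls : α → List (ℕ × Bool)} {cur : α → List (List (ℕ × Bool))}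
    (hB : Poly B) (hls : Poly ls) (hcur : Poly cur) :
    Poly (fun a => rstep (B a) (ls a) (cur a)) := by
  have h1 : Poly (fun a => (cur a).flatMap fun ρ => (ls a).map (· :: ρ)) := by
    refine NPC.Poly.flatMap (F := fun a ρ => (ls a).map (· :: ρ)) hcur ?_
    refine NPC.Poly.map (F := fun p l => l :: p.2) (hls.comp (NPC.Poly.fst NPC.Poly.id)) ?_
    exact NPC.Poly.cons (NPC.Poly.snd NPC.Poly.id) (NPC.Poly.snd (NPC.Poly.fst NPC.Poly.id))
  have h2 := NPC.Poly.append hcur h1
  exact NPC.Poly.ite (NPC.Poly.decide_le (NPC.Poly.length h2) hB) h2 hcur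

theorem restr_poly {B k : α → ℕ} {ls : α → List (ℕ × Bool)}
    (hB : UPoly B) (hls : Poly ls) (hk : UPoly k) :
    Poly (fun a => restr (B a) (ls a) (k a)) := by
  obtain ⟨r, hr⟩ := UPoly.sz_le hB
  obtain ⟨s, hs⟩ := UPoly.sz_le hk
  obtain ⟨t, ht⟩ := hls.sz_le
  refine NPC.Poly.foldl (F := fun a cur (_ : ℕ) => rstep (B a) (ls a) cur) hk.range
    (NPC.Poly.const [[]]) (rstep_poly (hB.toPoly.comp (NPC.Poly.fst NPC.Poly.id))
      (hls.comp (NPC.Poly.fst NPC.Poly.id)) (NPC.Poly.fst (NPC.Poly.snd NPC.Poly.id)))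
    ((r + 1) * (s * (t + 1) + Polynomial.C 2) + Polynomial.C 1) ?_
  intro a j hj
  rw [List.length_range] at hj
  have e : (List.range (k a)).take j = List.range j := by
    rw [List.take_range, min_eq_left hj]
  rw [e]
  have h1 := sz_terms (ls a) (restr (B a) (ls a) j) (B a + 1) (k a)
    ((restr_len _ _ _).trans (by omega)) (fun ρ hρ => by
      have := restr_lits (B a) (ls a) j ρ hρ
      exact ⟨this.1.trans hj, this.2⟩)
  refine le_trans h1 ?_
  have e1 := hr a
  have e2 := hs a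
  have e3 := ht a
  simp only [Polynomial.eval_add, Polynomial.eval_mul, Polynomial.eval_C, Polynomial.eval_one]
  refine Nat.add_le_add_right (Nat.mul_le_mul (by omega) ?_) 1
  exact Nat.add_le_add_right (Nat.mul_le_mul e2 (by omega)) 2

theorem sstep_poly {B : α → ℕ} {l : α → ℕ × Bool} {cur : α → List (List (ℕ × Bool))}
    (hB : Poly B) (hcur : Poly cur) (hl : Poly l) :
    Poly (fun a => sstep (B a) (cur a) (l a)) := by
  have h1 : Poly (fun a => (cur a).map (l a :: ·)) := by
    refine NPC.Poly.map (F := fun a t => l a :: t) hcur ?_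
    exact NPC.Poly.cons (hl.comp (NPC.Poly.fst NPC.Poly.id)) (NPC.Poly.snd NPC.Poly.id)
  have h2 := NPC.Poly.append hcur h1
  exact NPC.Poly.ite (NPC.Poly.decide_le (NPC.Poly.length h2) hB) h2 hcur

theorem subs_poly {B : α → ℕ} {L : α → List (ℕ × Bool)} (hB : UPoly B) (hL : Poly L) :
    Poly (fun a => subs (B a) (L a)) := by
  obtain ⟨r, hr⟩ := UPoly.sz_le hB
  obtain ⟨t, ht⟩ := hL.sz_le
  refine NPC.Poly.foldl (F := fun a cur l => sstep (B a) cur l) hL
    (NPC.Poly.const [[]]) (sstep_poly (hB.toPoly.comp (NPC.Poly.fst NPC.Poly.id))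
      (NPC.Poly.fst (NPC.Poly.snd NPC.Poly.id)) (NPC.Poly.snd (NPC.Poly.snd NPC.Poly.id)))
    ((r + 1) * (t * (t + 1) + Polynomial.C 2) + Polynomial.C 1) ?_
  intro a j hj
  obtain ⟨h2, h3⟩ := subs_inv (B a) (fun l => l ∈ L a) ((L a).take j) [[]] 0
    (fun l hl => List.mem_of_mem_take hl) (by simp) (by simp)
  have hlen := length_lt_sz (L a)
  have h1 := sz_terms (L a) (((L a).take j).foldl (sstep (B a)) [[]]) (B a + 1) (sz (L a))
    (h2.trans (by omega)) (fun ρ hρ => by
      refine ⟨(h3 ρ hρ).1.trans ?_, (h3 ρ hρ).2⟩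
      have : ((L a).take j).length ≤ (L a).length := by simp
      omega)
  refine le_trans h1 ?_
  have e1 := hr a
  have e3 := ht a
  simp only [Polynomial.eval_add, Polynomial.eval_mul, Polynomial.eval_C, Polynomial.eval_one]
  refine Nat.add_le_add_right (Nat.mul_le_mul (by omega) ?_) 1
  exact Nat.add_le_add_right (Nat.mul_le_mul e3 (by omega)) 2

theorem frq_poly {U : α → List (List Bool)} {ls ρ : α → List (ℕ × Bool)} (hU : Poly U)
    (hls : Poly ls) (hρ : Poly ρ) : Poly (fun a => frq (U a) (ls a) (ρ a)) := by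
  refine NPC.Poly.filter (p := fun a l => decide (5 * cov (U a) (ρ a) ≤ 8 * cov (U a) (l :: ρ a)))
    hls ?_
  have hU' := hU.comp (NPC.Poly.fst (NPC.Poly.id (α := α × (ℕ × Bool))))
  have hρ' := hρ.comp (NPC.Poly.fst (NPC.Poly.id (α := α × (ℕ × Bool))))
  exact NPC.Poly.decide_le (NPC.Poly.mul (NPC.Poly.const 5) (cov_poly hU' hρ'))
    (NPC.Poly.mul (NPC.Poly.const 8) (cov_poly hU' (NPC.Poly.cons (NPC.Poly.snd NPC.Poly.id) hρ')))

theorem cnds1_poly {B D m : α → ℕ} {U neg : α → List (List Bool)} {ls ρ : α → List (ℕ × Bool)}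
    (hB : UPoly B) (hD : Poly D) (hm : Poly m) (hU : Poly U) (hneg : Poly neg) (hls : Poly ls)
    (hρ : Poly ρ) :
    Poly (fun a => (subs (B a) (frq (U a) (ls a) (ρ a))).filter
      fun t => decide (D a * cov (neg a) t ≤ m a)) := by
  refine NPC.Poly.filter (p := fun a t => decide (D a * cov (neg a) t ≤ m a))
    (subs_poly hB (frq_poly hU hls hρ)) ?_
  exact NPC.Poly.decide_le (NPC.Poly.mul (hD.comp (NPC.Poly.fst NPC.Poly.id))
    (cov_poly (hneg.comp (NPC.Poly.fst NPC.Poly.id)) (NPC.Poly.snd NPC.Poly.id)))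
    (hm.comp (NPC.Poly.fst NPC.Poly.id))

theorem cnds_poly {k B D m : α → ℕ} {U neg : α → List (List Bool)} {ls : α → List (ℕ × Bool)}
    (hk : UPoly k) (hB : UPoly B) (hD : Poly D) (hm : Poly m) (hU : Poly U) (hneg : Poly neg)
    (hls : Poly ls) :
    Poly (fun a => cnds (k a) (B a) (D a) (m a) (U a) (neg a) (ls a)) := by
  have h1 : Poly (fun p : α × List (ℕ × Bool) => p.1) := NPC.Poly.fst NPC.Poly.id
  have h2 : Poly (fun p : α × List (ℕ × Bool) => p.2) := NPC.Poly.snd NPC.Poly.id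
  have h3 := cnds1_poly (α := α × List (ℕ × Bool)) (B := fun p => B p.1) (D := fun p => D p.1)
    (m := fun p => m p.1) (U := fun p => U p.1) (neg := fun p => neg p.1) (ls := fun p => ls p.1)
    (ρ := fun p => p.2) (UPoly.comp hB h1) (hD.comp h1) (hm.comp h1) (hU.comp h1) (hneg.comp h1)
    (hls.comp h1) h2
  have h4 := restr_poly hB hls hk
  refine NPC.Poly.flatMap h4 ?_
  exact h3

theorem bstep_poly {U : α → List (List Bool)} {acc : α → List (List (ℕ × Bool))}
    {t : α → List (ℕ × Bool)} (hU : Poly U) (hacc : Poly acc) (ht : Poly t) :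
    Poly (fun a => bstep (U a) (acc a) (t a)) :=
  NPC.Poly.ite (NPC.Poly.decide_lt (covD_poly hU hacc) (cov_poly hU ht))
    (NPC.Poly.cons ht (NPC.Poly.const [])) hacc

theorem best_poly {U : α → List (List Bool)} {cs : α → List (List (ℕ × Bool))} (hU : Poly U)
    (hcs : Poly cs) : Poly (fun a => best (U a) (cs a)) := by
  obtain ⟨t, ht⟩ := hcs.sz_le
  refine NPC.Poly.foldl (F := fun a acc t => bstep (U a) acc t) hcs
    (NPC.Poly.const []) (bstep_poly (hU.comp (NPC.Poly.fst NPC.Poly.id))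
      (NPC.Poly.fst (NPC.Poly.snd NPC.Poly.id)) (NPC.Poly.snd (NPC.Poly.snd NPC.Poly.id)))
    (t + Polynomial.C 2) ?_
  intro a j hj
  have h1 := (best_aux (U a) (fun t => t ∈ cs a) ((cs a).take j) [] (Or.inl rfl)
    (fun t ht => List.mem_of_mem_take ht)).1
  simp only [Polynomial.eval_add, Polynomial.eval_C]
  have e1 := ht a
  have hacc : sz (((cs a).take j).foldl (bstep (U a)) []) ≤ sz (cs a) + 2 := by
    have h2 := sz_le_length_mul (((cs a).take j).foldl (bstep (U a)) []) (sz (cs a)) (by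
      intro x hx
      rcases h1 with h1 | ⟨t, h3, h1⟩
      · rw [h1] at hx; simp at hx
      · rw [h1, List.mem_singleton] at hx
        subst hx
        exact (sz_le_of_mem h3).le)
    have h3 : (((cs a).take j).foldl (bstep (U a)) []).length ≤ 1 := by
      rcases h1 with h1 | ⟨t, _, h1⟩ <;> rw [h1] <;> simp
    calc _ ≤ _ := h2
      _ ≤ 1 * (sz (cs a) + 1) + 1 := Nat.add_le_add_right (Nat.mul_le_mul_right _ h3) 1
      _ = sz (cs a) + 2 := by ring
  exact hacc.trans (by omega)

theorem rnd_poly {k B D m : α → ℕ} {pos neg : α → List (List Bool)} {ls : α → List (ℕ × Bool)}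
    {H : α → List (List (ℕ × Bool))}
    (hk : UPoly k) (hB : UPoly B) (hD : Poly D) (hm : Poly m) (hpos : Poly pos) (hneg : Poly neg)
    (hls : Poly ls) (hH : Poly H) :
    Poly (fun a => rnd (k a) (B a) (D a) (m a) (pos a) (neg a) (ls a) (H a)) := by
  have h1 := rest_poly hpos hH
  exact NPC.Poly.append (best_poly h1 (cnds_poly hk hB hD hm h1 hneg hls)) hH

end

theorem frq_length (U : List (List Bool)) (ls ρ : List (ℕ × Bool)) :
    (frq U ls ρ).length ≤ ls.length := by
  unfold frq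
  exact List.length_filter_le _ _

theorem cnds_len {k B D m : ℕ} {U neg : List (List Bool)} {ls : List (ℕ × Bool)}
    {t : List (ℕ × Bool)} (ht : t ∈ cnds k B D m U neg ls) : t.length ≤ ls.length := by
  unfold cnds at ht
  obtain ⟨ρ, _, h⟩ := List.mem_flatMap.1 ht
  have h1 := (subs_inv B (fun _ => True) (frq U ls ρ) [[]] 0 (fun _ _ => trivial) (by simp)
    (by simp)).2 t (List.mem_of_mem_filter h)
  have h2 := frq_length U ls ρ
  omega

theorem run_size (k B D m : ℕ) (pos neg : List (List Bool)) (ls : List (ℕ × Bool)) :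
    ∀ j, (run j k B D m pos neg ls).length ≤ j ∧
      ∀ t ∈ run j k B D m pos neg ls, t.length ≤ ls.length ∧ ∀ l ∈ t, l ∈ ls := by
  intro j
  induction j with
  | zero => simp [run]
  | succ j ih =>
    rw [run_succ]
    unfold rnd
    set H := run j k B D m pos neg ls
    rcases (best_spec (rest pos H) (cnds k B D m (rest pos H) neg ls)).1 with h | ⟨t, ht, h⟩
    · rw [h, List.nil_append]
      exact ⟨by omega, ih.2⟩
    · rw [h]
      refine ⟨by simp; omega, fun t' ht' => ?_⟩
      rcases List.mem_append.1 ht' with ht' | ht'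
      · rw [List.mem_singleton.1 ht']
        exact ⟨cnds_len ht, (cnds_lits ht).1⟩
      · exact ih.2 t' ht'

section

variable {α : Type} [TEnc α]

theorem run_poly {R k B D m : α → ℕ} {pos neg : α → List (List Bool)} {ls : α → List (ℕ × Bool)}
    (hR : UPoly R) (hk : UPoly k) (hB : UPoly B) (hD : Poly D) (hm : Poly m) (hpos : Poly pos)
    (hneg : Poly neg) (hls : Poly ls) :
    Poly (fun a => run (R a) (k a) (B a) (D a) (m a) (pos a) (neg a) (ls a)) := by
  obtain ⟨r, hr⟩ := UPoly.sz_le hR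
  obtain ⟨t, ht⟩ := hls.sz_le
  have f1 : Poly (fun p : α × List (List (ℕ × Bool)) × ℕ => p.1) := NPC.Poly.fst NPC.Poly.id
  have h1 := rnd_poly (α := α × List (List (ℕ × Bool)) × ℕ) (k := fun p => k p.1)
    (B := fun p => B p.1) (D := fun p => D p.1) (m := fun p => m p.1) (pos := fun p => pos p.1)
    (neg := fun p => neg p.1) (ls := fun p => ls p.1) (H := fun p => p.2.1)
    (UPoly.comp hk f1) (UPoly.comp hB f1) (hD.comp f1) (hm.comp f1) (hpos.comp f1) (hneg.comp f1)
    (hls.comp f1) (NPC.Poly.fst (NPC.Poly.snd NPC.Poly.id))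
  refine NPC.Poly.foldl (F := fun a H (_ : ℕ) => rnd (k a) (B a) (D a) (m a) (pos a) (neg a)
    (ls a) H) hR.range (NPC.Poly.const []) h1
    (r * (t * (t + 1) + Polynomial.C 2) + Polynomial.C 1) ?_
  intro a j hj
  rw [List.length_range] at hj
  have e : (List.range (R a)).take j = List.range j := by
    rw [List.take_range, min_eq_left hj]
  rw [e]
  obtain ⟨h2, h3⟩ := run_size (k a) (B a) (D a) (m a) (pos a) (neg a) (ls a) j
  have hlen := length_lt_sz (ls a)
  have h4 := sz_terms (ls a) _ (R a) (sz (ls a)) (h2.trans hj) (fun t ht =>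
    ⟨(h3 t ht).1.trans (by omega), (h3 t ht).2⟩)
  refine le_trans h4 ?_
  have e1 := hr a
  have e3 := ht a
  simp only [Polynomial.eval_add, Polynomial.eval_mul, Polynomial.eval_C, Polynomial.eval_one]
  refine Nat.add_le_add_right (Nat.mul_le_mul (by omega) ?_) 1
  exact Nat.add_le_add_right (Nat.mul_le_mul e3 (by omega)) 2

theorem lrn_poly {ls : α → List (ℕ × Bool)} {s a B : α → ℕ} {S : α → List (List Bool × Bool)}
    (hls : Poly ls) (hs : Poly s) (ha : Poly a) (hB : UPoly B) (hS : Poly S) :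
    Poly (fun x => lrn (ls x) (s x) (a x) (B x) (S x)) := by
  have hm : UPoly (fun x => (S x).length) := UPoly.length hS
  have hs1 := NPC.Poly.succ hs
  have hR : UPoly (fun x => min (8 * (s x + 1) * a x) (S x).length) :=
    UPoly.of_le (NPC.Poly.min (NPC.Poly.mul (NPC.Poly.mul (NPC.Poly.const 8) hs1) ha) hm.toPoly) hm
      (fun x => min_le_right _ _)
  exact run_poly hR hm hB (NPC.Poly.mul (NPC.Poly.mul (NPC.Poly.const 128) hs1)
    (NPC.Poly.mul ha ha)) hm.toPoly (poss_poly.comp hS) (negs_poly.comp hS) hls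

end

end Pool.Agent.K9h49.DN
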