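import Pool.Agent.K9h49.DN.Final
import Pool.Agent.K9h49.DN.PolyA

/-!
# DNF formulas with `s` terms are learnable in time `n ^ O(log s) * poly(1/ε)`
-/

namespace Pool.Agent.K9h49.DN

open Finset Pool.Agent.Helper91K9.DL Pool.Agent.NPC Pool.Agent.H424R2.PPAD

/-- The first learner. -/
def learnA (p : (ℕ × ℕ × List Bool) × List (List Bool × Bool)) : List (List (ℕ × Bool)) :=
  lrn (lits (nvars p.2)) p.1.1 p.1.2.1 p.1.2.2.length p.2

theorem learnA_poly : Poly learnA := by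
  have h2 : Poly (fun p : (ℕ × ℕ × List Bool) × List (List Bool × Bool) => p.2) :=
    NPC.Poly.snd NPC.Poly.id
  have h3 : UPoly (fun p : (ℕ × ℕ × List Bool) × List (List Bool × Bool) => nvars p.2) :=
    nvars_upoly.comp h2
  have h4 : Poly (fun p : (ℕ × ℕ × List Bool) × List (List Bool × Bool) => p.1) :=
    NPC.Poly.fst NPC.Poly.id
  exact lrn_poly (lits_poly h3) (NPC.Poly.fst h4) (NPC.Poly.fst (NPC.Poly.snd h4))
    (UPoly.length (NPC.Poly.snd (NPC.Poly.snd h4))) h2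

/-- The accuracy of the sample. -/
noncomputable def tau (s a : ℕ) : ℝ := 1 / (256 * ((s : ℝ) + 1) * (a * a))

theorem tau_pos (s a : ℕ) (ha : 1 ≤ a) : 0 < tau s a := by
  unfold tau
  have : (1 : ℝ) ≤ a := by exact_mod_cast ha
  positivity

/-- The arithmetic for the sample. -/
theorem num_m (n s a b m e : ℕ) (he : 31 ≤ e) (ha : 1 ≤ a) (hb : 1 ≤ b)
    (hm : (n + s + a + b) ^ e ≤ m) :
    8 * (s + 1) * a ≤ m ∧ 3 * Nat.log 2 (s + 1) + 5 ≤ m ∧
    2 * (256 * (s + 1) * (a * a)) ^ 2 * ((8 * (s + 1) * a + 1) * (2 * n + 1) + 2 * b) ≤ m := by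
  have hs : s + 1 ≤ n + s + a + b := by omega
  have haq : a ≤ n + s + a + b := by omega
  have hbq : b ≤ n + s + a + b := by omega
  have hnq : n ≤ n + s + a + b := by omega
  have hq2 : 2 ≤ n + s + a + b := by omega
  generalize n + s + a + b = q at *
  have hlog : Nat.log 2 (s + 1) ≤ s + 1 := Nat.log_le_self 2 (s + 1)
  have hm' : q ^ 31 ≤ m := (Nat.pow_le_pow_right (by omega) he).trans hm
  have p5 : q ^ 5 ≤ m := (Nat.pow_le_pow_right (by omega) (by omega)).trans hm'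
  have h8 : 8 ≤ q ^ 3 := by
    calc 8 = 2 ^ 3 := by norm_num
      _ ≤ q ^ 3 := Nat.pow_le_pow_left hq2 3
  refine ⟨?_, ?_, ?_⟩
  · calc 8 * (s + 1) * a ≤ q ^ 3 * q * q := by gcongr
      _ = q ^ 5 := by ring
      _ ≤ m := p5
  · calc 3 * Nat.log 2 (s + 1) + 5 ≤ 3 * q + 5 := by omega
      _ ≤ 8 * q ^ 2 := by nlinarith
      _ ≤ q ^ 3 * q ^ 2 := by gcongr
      _ = q ^ 5 := by ring
      _ ≤ m := p5
  · have h1 : (8 * (s + 1) * a + 1) * (2 * n + 1) + 2 * b ≤ 32 * q ^ 3 := by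
      have h2 : 8 * (s + 1) * a + 1 ≤ 9 * q ^ 2 := by
        have : (s + 1) * a ≤ q * q := Nat.mul_le_mul hs haq
        nlinarith
      have h3 : 2 * n + 1 ≤ 3 * q := by omega
      have h4 := Nat.mul_le_mul h2 h3
      have h5 : q ≤ q ^ 3 := by nlinarith
      calc (8 * (s + 1) * a + 1) * (2 * n + 1) + 2 * b ≤ 9 * q ^ 2 * (3 * q) + 2 * q := by omega
        _ = 27 * q ^ 3 + 2 * q := by ring
        _ ≤ _ := by omega
    have h2 : 256 * (s + 1) * (a * a) ≤ 256 * q ^ 3 := by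
      calc 256 * (s + 1) * (a * a) ≤ 256 * q * (q * q) := by gcongr
        _ = 256 * q ^ 3 := by ring
    have h3 : 2 ^ 22 ≤ q ^ 22 := Nat.pow_le_pow_left hq2 22
    calc 2 * (256 * (s + 1) * (a * a)) ^ 2 * ((8 * (s + 1) * a + 1) * (2 * n + 1) + 2 * b) ≤
          2 * (256 * q ^ 3) ^ 2 * (32 * q ^ 3) := by gcongr
      _ = 2 ^ 22 * q ^ 9 := by ring
      _ ≤ q ^ 22 * q ^ 9 := Nat.mul_le_mul_right _ h3
      _ = q ^ 31 := by ring
      _ ≤ m := hm'

theorem log_succ_le (s : ℕ) : Nat.log 2 (s + 1) ≤ Nat.log 2 s + 1 := by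
  rcases Nat.eq_zero_or_pos s with rfl | hs
  · simp
  · have h1 : Nat.log 2 (s + 1) ≤ Nat.log 2 (s * 2) := Nat.log_mono_right (by omega)
    rwa [Nat.log_mul_base (by norm_num) (by omega)] at h1

theorem pow_chain (x q c d e : ℕ) (hq : 1 ≤ q) (h : x ≤ q ^ c) (he : c * d ≤ e) :
    x ^ d ≤ q ^ e := by
  calc x ^ d ≤ (q ^ c) ^ d := Nat.pow_le_pow_left h d
    _ = q ^ (c * d) := by rw [← pow_mul]
    _ ≤ q ^ e := Nat.pow_le_pow_right hq he

/-- The arithmetic for the running time. -/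
theorem num_B (n s a B e : ℕ) (he : 512 ≤ e) (ha : 1 ≤ a)
    (hB : (n + s + a + 1) ^ e * (n + 1) ^ (e * Nat.log 2 s) ≤ B) :
    ((lits n).length + 1) ^ (3 * Nat.log 2 (s + 1) + 5) ≤ B ∧ (4 * a * (s + 1)) ^ 128 ≤ B := by
  rw [lits_length]
  constructor
  · refine le_trans ?_ hB
    have h1 : 2 * n + 1 ≤ (n + 1) ^ 2 := by nlinarith
    have h2 := log_succ_le s
    have h3 : 2 * (3 * Nat.log 2 (s + 1) + 5) ≤ e + e * Nat.log 2 s := by
      have : 6 * Nat.log 2 s ≤ e * Nat.log 2 s := Nat.mul_le_mul_right _ (by omega)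
      omega
    calc (2 * n + 1) ^ (3 * Nat.log 2 (s + 1) + 5) ≤ (n + 1) ^ (e + e * Nat.log 2 s) :=
          pow_chain _ _ 2 _ _ (by omega) h1 h3
      _ = (n + 1) ^ e * (n + 1) ^ (e * Nat.log 2 s) := by rw [pow_add]
      _ ≤ _ := Nat.mul_le_mul_right _ (Nat.pow_le_pow_left (by omega) _)
  · have h2 : 4 * a * (s + 1) ≤ (n + s + a + 1) ^ 4 := by
      have hq1 : a ≤ n + s + a + 1 := by omega
      have hq3 : s + 1 ≤ n + s + a + 1 := by omega
      have hq2 : 2 ≤ n + s + a + 1 := by omega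
      generalize n + s + a + 1 = q at *
      have h4 : 4 ≤ q ^ 2 := by nlinarith
      calc 4 * a * (s + 1) ≤ q ^ 2 * q * q := Nat.mul_le_mul (Nat.mul_le_mul h4 hq1) hq3
        _ = q ^ 4 := by ring
    have h3 : (4 * a * (s + 1)) ^ 128 ≤ (n + s + a + 1) ^ e :=
      pow_chain _ _ 4 128 e (by omega) h2 (by omega)
    have h4 : 1 ≤ (n + 1) ^ (e * Nat.log 2 s) := Nat.one_le_pow _ _ (by omega)
    exact h3.trans ((Nat.le_mul_of_pos_right _ h4).trans hB)

theorem PP_false {n : ℕ} (p : Cube n → Prop) (h : ∀ x, ¬ p x) : PP p = 0 := by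
  classical
  rw [PP_eq]
  have : (univ.filter p) = ∅ := filter_false_of_mem fun x _ => h x
  rw [this]
  simp

theorem mainA :
    ∃ A : (ℕ × ℕ × List Bool) × List (List Bool × Bool) → List (List (ℕ × Bool)), PTime A ∧
      ∃ e : ℕ, ∀ (n s a b : ℕ) (F : List (List (ℕ × Bool))), 1 ≤ a → 1 ≤ b →
        F.length ≤ s → (∀ t ∈ F, ∀ l ∈ t, l.1 < n) →
        ∀ (m : ℕ) (pad : List Bool), (n + s + a + b) ^ e ≤ m →
          (n + s + a + 1) ^ e * (n + 1) ^ (e * Nat.log 2 s) ≤ pad.length →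
          Succeeds (fun S => A ((s, a, pad), S)) n m F (1 / a) (1 / b) := by
  classical
  obtain ⟨e, he⟩ : ∃ e : ℕ, 512 ≤ e := ⟨512, le_rfl⟩
  refine ⟨learnA, PTime.of_poly learnA_poly, e, ?_⟩
  intro n s a b F ha hb hFs hF m pad hm hpad
  obtain ⟨m1, m2, m3⟩ := num_m n s a b m e (by omega) ha hb hm
  obtain ⟨b1, b2⟩ := num_B n s a pad.length e he ha hpad
  have hm0 : 0 < m := by
    have : 0 < 8 * (s + 1) * a := by positivity
    omega
  have ha' : (1 : ℝ) ≤ a := by exact_mod_cast ha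
  have hτ0 := tau_pos s a ha
  set R := 8 * (s + 1) * a with hR
  have hτm : ((R : ℝ) + 1) * (2 * n + 1) + 2 * b ≤ m * (tau s a) ^ 2 / 2 := by
    have h1 : (2 * (256 * ((s : ℝ) + 1) * (a * a)) ^ 2 * (((R : ℝ) + 1) * (2 * n + 1) + 2 * b)) ≤ m := by
      exact_mod_cast m3
    unfold tau
    rw [one_div, inv_pow, ← div_eq_mul_inv, div_div, le_div_iff₀ (by positivity)]
    linarith
  refine (samp m b R (ff n F) (tau s a) hb hτ0 hτm).trans ?_
  refine Nat.cast_le.2 (card_le_card fun X hX => ?_)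
  simp only [mem_filter, mem_univ, true_and] at hX ⊢
  have hS : Sit n m F X (lits n) (F.map (UU n)).toFinset (ff n F) (s + 1) a m pad.length R
      (tau s a) := by
    refine ⟨by omega, ha, hm0, lits_lt n, lits_nodup n, ?_, ?_, ?_, ?_, ?_, ?_, hX, m2, b1, b2⟩
    · refine (List.toFinset_card_le _).trans ?_
      rw [List.length_map]; omega
    · intro x
      rw [ff_iff F hF]
      constructor
      · rintro ⟨t, ht, h⟩
        exact ⟨UU n t, List.mem_toFinset.2 (List.mem_map.2 ⟨t, ht, rfl⟩), h⟩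
      · rintro ⟨T, hT, h⟩
        obtain ⟨t, ht, rfl⟩ := List.mem_map.1 (List.mem_toFinset.1 hT)
        exact ⟨t, ht, h⟩
    · intro T _ l _
      exact mem_lits n _ l.1.2
    · unfold tau
      push_cast
      field_simp
    · rw [PP_false _ fun x hx => hx.2 hx.1]; exact hτ0.le
    · rw [PP_false _ fun x hx => hx.2 hx.1]; exact hτ0.le
  have hfin := hS.final hR
  have e1 : examples F X = smp F X := rfl
  have e2 : (smp F X).length = m := by unfold smp; simp
  have e3 : learnA ((s, a, pad), smp F X) =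
      run R m pad.length (128 * (s + 1) * (a * a)) m (poss (smp F X)) (negs (smp F X))
        (lits n) := by
    unfold learnA lrn
    simp only [nvars_smp F X hm0, e2]
    rw [min_eq_left m1]
  rw [e1, e3]
  exact hfin

end Pool.Agent.K9h49.DN
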