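import Pool.Agent.K9h49.DN.Round

/-!
# Influences of unate formulas, and formulas which ignore variables of small influence
-/

namespace Pool.Agent.K9h49.DN

open Finset Pool.Agent.Helper91K9.DL

/-- Every variable occurs only negated or only unnegated. -/
def Unate (F : List (List (ℕ × Bool))) : Prop :=
  ∀ v, (∀ t ∈ F, (v, true) ∉ t) ∨ (∀ t ∈ F, (v, false) ∉ t)

variable {n : ℕ}

/-- Flip the coordinate `i`. -/
def fl (i : Fin n) (x : Cube n) : Cube n := Function.update x i (!(x i))

theorem fl_fl (i : Fin n) (x : Cube n) : fl i (fl i x) = x := by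
  unfold fl; simp

theorem fl_self (i : Fin n) (x : Cube n) : fl i x i = !(x i) := by simp [fl]

theorem fl_ne (i : Fin n) (x : Cube n) {j : Fin n} (h : j ≠ i) : fl i x j = x j := by
  simp [fl, h]

theorem PP_fl (i : Fin n) (p : Cube n → Prop) : PP (fun x => p (fl i x)) = PP p := by
  classical
  rw [PP_eq, PP_eq]
  congr 2
  refine card_bij' (fun x _ => fl i x) (fun x _ => fl i x) ?_ ?_ ?_ ?_
  · intro x hx
    simpa using hx
  · intro x hx
    simp only [mem_filter, mem_univ, true_and] at hx ⊢
    rw [fl_fl]; exact hx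
  · intro x _; exact fl_fl i x
  · intro x _; exact fl_fl i x

/-- The influence of the variable `i`. -/
noncomputable def Inf (f : Cube n → Prop) (i : Fin n) : ℝ := PP (fun x => ¬ (f x ↔ f (fl i x)))

/-- The correlation with the literal `(i, σ)`. -/
noncomputable def cor (f : Cube n → Prop) (i : Fin n) (σ : Bool) : ℝ :=
  PP (fun x => f x ∧ x i = σ) - PP (fun x => f x ∧ x i = !σ)

theorem cor_not (f : Cube n → Prop) (i : Fin n) (σ : Bool) : cor f i (!σ) = - cor f i σ := by
  unfold cor
  rw [Bool.not_not]
  ring

theorem cor_eq (f : Cube n → Prop) (i : Fin n) (σ : Bool) :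
    cor f i σ = PP (fun x => f (fl i x) ∧ x i = !σ) - PP (fun x => f x ∧ x i = !σ) := by
  unfold cor
  congr 1
  rw [← PP_fl i]
  refine PP_congr fun x => ?_
  rw [fl_self]
  cases x i <;> cases σ <;> simp

/-- For a function which is monotone in the direction `σ` of `i` the influence is at most twice the
correlation. -/
theorem Inf_le_cor (f : Cube n → Prop) (i : Fin n) (σ : Bool)
    (h : ∀ x, x i = (!σ) → f x → f (fl i x)) : Inf f i ≤ 2 * cor f i σ := by
  have h1 : cor f i σ = PP (fun x => (f (fl i x) ∧ x i = !σ) ∧ ¬ f x) := by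
    rw [cor_eq, PP_and_not]
    congr 1
    refine PP_congr fun x => ?_
    constructor
    · rintro ⟨h1, h2⟩; exact ⟨h1, h x h2 h1, h2⟩
    · rintro ⟨h1, _, h2⟩; exact ⟨h1, h2⟩
  have h2 : PP (fun x => (f x ∧ x i = σ) ∧ ¬ f (fl i x)) = cor f i σ := by
    rw [h1, ← PP_fl i]
    refine PP_congr fun x => ?_
    rw [fl_self, fl_fl]
    cases x i <;> cases σ <;> simp
  have h3 : Inf f i ≤ PP (fun x => (f (fl i x) ∧ x i = !σ) ∧ ¬ f x) +
      PP (fun x => (f x ∧ x i = σ) ∧ ¬ f (fl i x)) := by
    refine le_trans (PP_mono fun x hx => ?_) (PP_or_le _ _)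
    by_cases hxi : x i = σ
    · right
      have h4 : fl i x i = !σ := by rw [fl_self, hxi]
      have h5 := h (fl i x) h4
      rw [fl_fl] at h5
      by_cases h6 : f (fl i x)
      · exact absurd ⟨fun _ => h6, fun _ => h5 h6⟩ hx
      · refine ⟨⟨?_, hxi⟩, h6⟩
        by_contra h7
        exact hx ⟨fun h => absurd h h7, fun h => absurd h h6⟩
    · left
      have h4 : x i = !σ := by revert hxi; cases x i <;> cases σ <;> simp
      have h5 := h x h4
      by_cases h6 : f x
      · exact absurd ⟨fun _ => h5 h6, fun _ => h6⟩ hx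
      · refine ⟨⟨?_, h4⟩, h6⟩
        by_contra h7
        exact hx ⟨fun h => absurd h h6, fun h => absurd h h7⟩
  rw [h2, ← h1] at h3
  linarith

theorem cor_le_Inf (f : Cube n → Prop) (i : Fin n) (σ : Bool) : cor f i σ ≤ Inf f i := by
  rw [cor_eq]
  have h1 : PP (fun x => f (fl i x) ∧ x i = !σ) ≤ PP (fun x => f x ∧ x i = !σ) + Inf f i := by
    refine le_trans (PP_mono fun x hx => ?_) (PP_or_le _ _)
    by_cases h : f x
    · exact Or.inl ⟨h, hx.2⟩
    · right
      intro h2
      exact h (h2.2 hx.1)
  linarith

theorem unate_dir (F : List (List (ℕ × Bool))) (hF : ∀ t ∈ F, ∀ l ∈ t, l.1 < n) (hu : Unate F)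
    (i : Fin n) : ∃ σ, ∀ x : Cube n, x i = (!σ) → ff n F x → ff n F (fl i x) := by
  have key : ∀ σ : Bool, (∀ t ∈ F, ((i : ℕ), !σ) ∉ t) →
      ∀ x : Cube n, x i = (!σ) → ff n F x → ff n F (fl i x) := by
    intro σ h x hx hf
    rw [ff_iff F hF] at hf ⊢
    obtain ⟨t, ht, hs⟩ := hf
    refine ⟨t, ht, fun l hl => ?_⟩
    by_cases hli : l.1 = i
    · exfalso
      have h1 := hs l hl
      have h2 := (mem_UU t l).1 hl
      rw [hli] at h1 h2
      rw [← h1, hx] at h2
      exact h t ht h2
    · rw [fl_ne i x hli]
      exact hs l hl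
  rcases hu i with h | h
  · exact ⟨false, key false (by simpa using h)⟩
  · exact ⟨true, key true (by simpa using h)⟩

theorem Inf_le_abs (F : List (List (ℕ × Bool))) (hF : ∀ t ∈ F, ∀ l ∈ t, l.1 < n) (hu : Unate F)
    (i : Fin n) : Inf (ff n F) i ≤ 2 * |cor (ff n F) i true| := by
  obtain ⟨σ, h⟩ := unate_dir F hF hu i
  refine (Inf_le_cor _ i σ h).trans ?_
  cases σ with
  | true => linarith [le_abs_self (cor (ff n F) i true)]
  | false =>
    have h1 := cor_not (ff n F) i true
    simp only [Bool.not_true] at h1
    rw [h1]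
    linarith [neg_le_abs (cor (ff n F) i true)]

theorem abs_cor_le (f : Cube n → Prop) (i : Fin n) : |cor f i true| ≤ Inf f i := by
  rw [abs_le]
  have h1 := cor_le_Inf f i true
  have h2 := cor_le_Inf f i false
  have h3 := cor_not f i true
  simp only [Bool.not_true] at h3
  constructor <;> linarith

/-- The variables of a set of literals. -/
def vars (U : Finset (Fin n × Bool)) : Finset (Fin n) := U.image Prod.fst

theorem PP_satL_le (U : Finset (Fin n × Bool)) : PP (satL U) ≤ (1 / 2) ^ (vars U).card := by
  by_cases h : ∃ x0, satL U x0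
  · obtain ⟨x0, h0⟩ := h
    rw [← PP_agr (vars U) x0]
    refine PP_mono fun x hx v hv => ?_
    obtain ⟨l, hl, rfl⟩ := mem_image.1 hv
    rw [hx l hl, h0 l hl]
  · push Not at h
    have : PP (satL U) = 0 := by
      have h1 : PP (satL U) ≤ PP (fun _ : Cube n => False) := PP_mono fun x hx => h x hx
      have h2 : PP (fun _ : Cube n => False) = 0 := by simp [PP]
      exact le_antisymm (h1.trans h2.le) (PP_nonneg _)
    rw [this]
    positivity

/-- A variable of large influence is in a short term. -/
theorem short_term (F : List (List (ℕ × Bool))) (hF : ∀ t ∈ F, ∀ l ∈ t, l.1 < n) (i : Fin n)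
    (s : ℕ) (hs : F.length ≤ s) (θ : ℝ) (hθ : 0 < θ) (hi : θ ≤ Inf (ff n F) i) :
    ∃ t ∈ F, i ∈ vars (UU n t) ∧ θ * 2 ^ (vars (UU n t)).card ≤ 2 * s := by
  classical
  by_contra hcon
  push Not at hcon
  -- the pivotal points
  have h1 : Inf (ff n F) i ≤ 2 * PP (fun x => ∃ t ∈ F, i ∈ vars (UU n t) ∧ satL (UU n t) x) := by
    set Q : Cube n → Prop := fun x => ∃ t ∈ F, i ∈ vars (UU n t) ∧ satL (UU n t) x with hQ
    have h2 : Inf (ff n F) i ≤ PP Q + PP (fun x => Q (fl i x)) := by
      refine le_trans (PP_mono fun x hx => ?_) (PP_or_le _ _)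
      have key : ∀ y : Cube n, ff n F y → ¬ ff n F (fl i y) → Q y := by
        intro y hy hny
        rw [ff_iff F hF] at hy hny
        obtain ⟨t, ht, hs⟩ := hy
        refine ⟨t, ht, ?_, hs⟩
        by_contra hni
        refine hny ⟨t, ht, fun l hl => ?_⟩
        have : l.1 ≠ i := by
          rintro rfl
          exact hni (mem_image.2 ⟨l, hl, rfl⟩)
        rw [fl_ne i y this]
        exact hs l hl
      by_cases h3 : ff n F x
      · left
        refine key x h3 fun h4 => hx ⟨fun _ => h4, fun _ => h3⟩
      · right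
        have h4 : ff n F (fl i x) := by
          by_contra h5
          exact hx ⟨fun h => absurd h h3, fun h => absurd h h5⟩
        refine key (fl i x) h4 ?_
        rw [fl_fl]; exact h3
    rw [PP_fl] at h2
    linarith
  -- the union bound
  have h2 : ∀ G : List (List (ℕ × Bool)), (∀ t ∈ G, t ∈ F) → (s = 0 → G = []) →
      PP (fun x : Cube n => ∃ t ∈ G, i ∈ vars (UU n t) ∧ satL (UU n t) x) ≤
        G.length * (θ / (2 * s)) ∧
      (G ≠ [] → PP (fun x : Cube n => ∃ t ∈ G, i ∈ vars (UU n t) ∧ satL (UU n t) x) <
        G.length * (θ / (2 * s))) := by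
    intro G
    induction G with
    | nil =>
      intro _ _
      refine ⟨?_, fun h => absurd rfl h⟩
      have : PP (fun x : Cube n => ∃ t ∈ ([] : List (List (ℕ × Bool))), i ∈ vars (UU n t) ∧
          satL (UU n t) x) = PP (fun _ : Cube n => False) := PP_congr fun x => by simp
      rw [this]; simp [PP]
    | cons t G ih =>
      intro hG hs0
      have hs1 : s ≠ 0 := fun h => by simpa using hs0 h
      have hs2 : (0 : ℝ) < s := by exact_mod_cast Nat.pos_of_ne_zero hs1
      have h3 := (ih (fun t' ht' => hG t' (List.mem_cons_of_mem _ ht'))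
        (fun h => absurd h hs1)).1
      have h4 : PP (fun x : Cube n => i ∈ vars (UU n t) ∧ satL (UU n t) x) < θ / (2 * s) := by
        by_cases hit : i ∈ vars (UU n t)
        · have h5 := hcon t (hG t (by simp)) hit
          have h6 := PP_satL_le (UU n t)
          have h7 : PP (fun x : Cube n => i ∈ vars (UU n t) ∧ satL (UU n t) x) ≤
              PP (satL (UU n t)) := PP_mono fun x hx => hx.2
          refine (h7.trans h6).trans_lt ?_
          rw [lt_div_iff₀ (by positivity), one_div, inv_pow, inv_mul_lt_iff₀ (by positivity)]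
          linarith
        · have h5 : PP (fun x : Cube n => i ∈ vars (UU n t) ∧ satL (UU n t) x) =
            PP (fun _ : Cube n => False) := PP_congr fun x => by simp [hit]
          rw [h5]
          have : PP (fun _ : Cube n => False) = 0 := by simp [PP]
          rw [this]
          positivity
      have h5 : PP (fun x : Cube n => ∃ t' ∈ t :: G, i ∈ vars (UU n t') ∧ satL (UU n t') x) <
          ((t :: G).length : ℝ) * (θ / (2 * s)) := by
        have h6 : PP (fun x : Cube n => ∃ t' ∈ t :: G, i ∈ vars (UU n t') ∧ satL (UU n t') x) ≤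
            PP (fun x : Cube n => i ∈ vars (UU n t) ∧ satL (UU n t) x) +
            PP (fun x : Cube n => ∃ t' ∈ G, i ∈ vars (UU n t') ∧ satL (UU n t') x) := by
          refine le_trans (PP_mono fun x hx => ?_) (PP_or_le _ _)
          obtain ⟨t', ht', h⟩ := hx
          rcases List.mem_cons.1 ht' with rfl | ht'
          · exact Or.inl h
          · exact Or.inr ⟨t', ht', h⟩
        rw [List.length_cons]
        push_cast
        linarith
      exact ⟨h5.le, fun _ => h5⟩
  have h3 := h2 F (fun _ h => h) (fun h => List.length_eq_zero_iff.1 (by omega))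
  rcases List.eq_nil_or_concat F with hnil | ⟨_, _, hne⟩
  · have : Inf (ff n F) i = 0 := by
      unfold Inf
      have : PP (fun x : Cube n => ¬ (ff n F x ↔ ff n F (fl i x))) =
          PP (fun _ : Cube n => False) := PP_congr fun x => by
        rw [hnil]; unfold ff dnfVal; simp
      rw [this]; simp [PP]
    linarith
  · have hne' : F ≠ [] := by rw [hne]; simp
    have h4 := h3.2 hne'
    have hs1 : (0 : ℝ) < s := by
      have : 0 < F.length := List.length_pos_of_ne_nil hne'
      exact_mod_cast (by omega : 0 < s)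
    have h5 : (F.length : ℝ) * (θ / (2 * s)) ≤ s * (θ / (2 * s)) :=
      mul_le_mul_of_nonneg_right (by exact_mod_cast hs) (by positivity)
    have h6 : (s : ℝ) * (θ / (2 * s)) = θ / 2 := by field_simp
    linarith

/-! ### Fixing the unimportant variables -/

/-- Replace the coordinates in `S` by those of `z`. -/
def mix (S : Finset (Fin n)) (x z : Cube n) : Cube n := fun i => if i ∈ S then z i else x i

theorem mix_insert (S : Finset (Fin n)) (i : Fin n) (x z : Cube n) :
    mix (insert i S) x z = Function.update (mix S x z) i (z i) := by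
  funext j
  by_cases h : j = i
  · subst h; simp [mix]
  · simp [mix, h]

theorem hybrid (f : Cube n → Prop) (S : Finset (Fin n)) :
    (open Classical in ((univ.filter fun p : Cube n × Cube n =>
      ¬ (f p.1 ↔ f (mix S p.1 p.2))).card : ℝ)) ≤ 2 ^ n * 2 ^ n * ∑ i ∈ S, Inf f i := by
  classical
  induction S using Finset.induction_on with
  | empty =>
    have h : ∀ a b : Cube n, mix ∅ a b = a := fun a b => by funext j; simp [mix]
    simp [h]
  | insert i S hi ih =>
    have h1 : ((univ.filter fun p : Cube n × Cube n =>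
        ¬ (f p.1 ↔ f (mix (insert i S) p.1 p.2))).card) ≤
        (univ.filter fun p : Cube n × Cube n => ¬ (f p.1 ↔ f (mix S p.1 p.2))).card +
        (univ.filter fun p : Cube n × Cube n =>
          ¬ (f (mix S p.1 p.2) ↔ f (mix (insert i S) p.1 p.2))).card := by
      refine (card_le_card fun p hp => ?_).trans (card_union_le _ _)
      simp only [mem_filter, mem_univ, true_and, mem_union] at hp ⊢
      by_contra h
      push Not at h
      exact hp (h.1.trans h.2)
    have h2 : (univ.filter fun p : Cube n × Cube n =>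
        ¬ (f (mix S p.1 p.2) ↔ f (mix (insert i S) p.1 p.2))).card ≤
        (univ.filter fun p : Cube n × Cube n => ¬ (f p.1 ↔ f (fl i p.1))).card := by
      refine card_le_card_of_injOn (fun p => (mix S p.1 p.2, mix S p.2 p.1)) ?_ ?_
      · intro p hp
        have hp' := (mem_filter.1 hp).2
        refine mem_coe.2 (mem_filter.2 ⟨mem_univ _, ?_⟩)
        rw [mix_insert] at hp'
        simp only
        intro h
        apply hp'
        by_cases hz : p.2 i = mix S p.1 p.2 i
        · rw [hz, Function.update_eq_self]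
        · have : Function.update (mix S p.1 p.2) i (p.2 i) = fl i (mix S p.1 p.2) := by
            unfold fl
            congr 1
            revert hz
            cases p.2 i <;> cases mix S p.1 p.2 i <;> simp
          rw [this]; exact h
      · rintro ⟨x, z⟩ _ ⟨x', z'⟩ _ h
        simp only [Prod.mk.injEq] at h ⊢
        constructor
        · funext j
          by_cases hj : j ∈ S
          · have := congrFun h.2 j; simpa [mix, hj] using this
          · have := congrFun h.1 j; simpa [mix, hj] using this
        · funext j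
          by_cases hj : j ∈ S
          · have := congrFun h.1 j; simpa [mix, hj] using this
          · have := congrFun h.2 j; simpa [mix, hj] using this
    have h3 : ((univ.filter fun p : Cube n × Cube n => ¬ (f p.1 ↔ f (fl i p.1))).card : ℝ) =
        2 ^ n * 2 ^ n * Inf f i := by
      have e : (univ.filter fun p : Cube n × Cube n => ¬ (f p.1 ↔ f (fl i p.1))) =
          (univ.filter fun x : Cube n => ¬ (f x ↔ f (fl i x))) ×ˢ (univ : Finset (Cube n)) := by
        ext p; simp
      rw [e, card_product]
      unfold Inf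
      rw [PP_eq]
      push_cast
      have h4 : ((univ : Finset (Cube n)).card : ℝ) = 2 ^ n := by simp
      rw [h4]
      field_simp
    rw [sum_insert hi]
    have h4 : ((univ.filter fun p : Cube n × Cube n =>
        ¬ (f p.1 ↔ f (mix (insert i S) p.1 p.2))).card : ℝ) ≤
        (univ.filter fun p : Cube n × Cube n => ¬ (f p.1 ↔ f (mix S p.1 p.2))).card +
        (univ.filter fun p : Cube n × Cube n => ¬ (f p.1 ↔ f (fl i p.1))).card := by
      exact_mod_cast h1.trans (Nat.add_le_add_left h2 _)
    rw [h3] at h4
    linarith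

/-- The variables in `S` may be fixed at a cost of at most their total influence. -/
theorem exists_fix (f : Cube n → Prop) (S : Finset (Fin n)) :
    ∃ z : Cube n, PP (fun x => ¬ (f x ↔ f (mix S x z))) ≤ ∑ i ∈ S, Inf f i := by
  classical
  by_contra hcon
  rw [not_exists] at hcon
  replace hcon := fun z => not_le.1 (hcon z)
  have h1 := hybrid f S
  have h2 : ((univ.filter fun p : Cube n × Cube n =>
      ¬ (f p.1 ↔ f (mix S p.1 p.2))).card : ℝ) =
      ∑ z : Cube n, 2 ^ n * PP (fun x => ¬ (f x ↔ f (mix S x z))) := by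
    rw [card_filter]
    push_cast
    rw [Fintype.sum_prod_type_right]
    refine sum_congr rfl fun z _ => ?_
    rw [PP_eq, card_filter]
    push_cast
    field_simp
  have h3 : ∑ _z : Cube n, (2 : ℝ) ^ n * ∑ i ∈ S, Inf f i <
      ∑ z : Cube n, 2 ^ n * PP (fun x => ¬ (f x ↔ f (mix S x z))) := by
    refine sum_lt_sum_of_nonempty univ_nonempty fun z _ => ?_
    exact mul_lt_mul_of_pos_left (hcon z) (by positivity)
  rw [sum_const, card_univ, nsmul_eq_mul] at h3
  have h4 : (Fintype.card (Cube n) : ℝ) = 2 ^ n := by simp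
  rw [h4] at h3
  have h5 : (open Classical in ((univ.filter fun p : Cube n × Cube n =>
      ¬ (f p.1 ↔ f (mix S p.1 p.2))).card : ℝ)) = ((univ.filter fun p : Cube n × Cube n =>
      ¬ (f p.1 ↔ f (mix S p.1 p.2))).card : ℝ) := by congr
  linarith

end Pool.Agent.K9h49.DN
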