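import Pool.Agent.K9h49.DN.MainA
import Pool.Agent.K9h49.DN.Unate

/-!
# Unate DNF formulas with `s` terms are learnable in time `poly(n, 1/ε) * s ^ O(log s)`
-/

namespace Pool.Agent.K9h49.DN

open Finset Pool.Agent.Helper91K9.DL Pool.Agent.NPC Pool.Agent.H424R2.PPAD

/-- The test for important variables. -/
def imptt (m D : ℕ) (pos : List (List Bool)) (v : ℕ) : Bool :=
  decide (m ≤ D * (cov pos [(v, true)] - cov pos [(v, false)])) ||
    decide (m ≤ D * (cov pos [(v, false)] - cov pos [(v, true)]))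

/-- The literals of the important variables. -/
def sel (m D : ℕ) (pos : List (List Bool)) (ls : List (ℕ × Bool)) : List (ℕ × Bool) :=
  ls.filter fun l => imptt m D pos l.1

/-- The inverse of the threshold for important variables. -/
def DD (n s a : ℕ) : ℕ := 1024 * (n + 1) * (s + 1) * (a * a)

/-- The second learner. -/
def learnB (p : (ℕ × ℕ × List Bool) × List (List Bool × Bool)) : List (List (ℕ × Bool)) :=
  lrn (sel p.2.length (DD (nvars p.2) p.1.1 p.1.2.1) (poss p.2) (lits (nvars p.2)))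
    p.1.1 p.1.2.1 p.1.2.2.length p.2

theorem imptt_poly {α : Type} [TEnc α] {m D v : α → ℕ} {pos : α → List (List Bool)}
    (hm : Poly m) (hD : Poly D) (hpos : Poly pos) (hv : Poly v) :
    Poly (fun a => imptt (m a) (D a) (pos a) (v a)) := by
  have h1 := cov_poly hpos (NPC.Poly.cons (NPC.Poly.pair hv (NPC.Poly.const true))
    (NPC.Poly.const []))
  have h2 := cov_poly hpos (NPC.Poly.cons (NPC.Poly.pair hv (NPC.Poly.const false))
    (NPC.Poly.const []))
  exact NPC.Poly.or (NPC.Poly.decide_le hm (NPC.Poly.mul hD (NPC.Poly.sub h1 h2)))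
    (NPC.Poly.decide_le hm (NPC.Poly.mul hD (NPC.Poly.sub h2 h1)))

theorem sel_poly {α : Type} [TEnc α] {m D : α → ℕ} {pos : α → List (List Bool)}
    {ls : α → List (ℕ × Bool)}
    (hm : Poly m) (hD : Poly D) (hpos : Poly pos) (hls : Poly ls) :
    Poly (fun a => sel (m a) (D a) (pos a) (ls a)) := by
  have h1 : Poly (fun p : α × (ℕ × Bool) => p.1) := NPC.Poly.fst NPC.Poly.id
  have h2 : Poly (fun p : α × (ℕ × Bool) => p.2.1) := NPC.Poly.fst (NPC.Poly.snd NPC.Poly.id)
  have h3 := imptt_poly (α := α × (ℕ × Bool)) (m := fun p => m p.1) (D := fun p => D p.1)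
    (pos := fun p => pos p.1) (v := fun p => p.2.1) (hm.comp h1) (hD.comp h1) (hpos.comp h1) h2
  refine (NPC.Poly.filter (p := fun a (l : ℕ × Bool) => imptt (m a) (D a) (pos a) l.1) hls
    h3).congr ?_
  intro a
  rfl

theorem DD_poly {α : Type} [TEnc α] {n s a : α → ℕ} (hn : Poly n) (hs : Poly s) (ha : Poly a) :
    Poly (fun x => DD (n x) (s x) (a x)) := by
  unfold DD
  exact NPC.Poly.mul (NPC.Poly.mul (NPC.Poly.mul (NPC.Poly.const 1024) (NPC.Poly.succ hn))
    (NPC.Poly.succ hs)) (NPC.Poly.mul ha ha)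

theorem learnB_poly : Poly learnB := by
  have h2 : Poly (fun p : (ℕ × ℕ × List Bool) × List (List Bool × Bool) => p.2) :=
    NPC.Poly.snd NPC.Poly.id
  have h3 : UPoly (fun p : (ℕ × ℕ × List Bool) × List (List Bool × Bool) => nvars p.2) :=
    nvars_upoly.comp h2
  have h4 : Poly (fun p : (ℕ × ℕ × List Bool) × List (List Bool × Bool) => p.1) :=
    NPC.Poly.fst NPC.Poly.id
  have hs := NPC.Poly.fst h4
  have ha := NPC.Poly.fst (NPC.Poly.snd h4)
  have hD : Poly (fun p : (ℕ × ℕ × List Bool) × List (List Bool × Bool) =>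
      DD (nvars p.2) p.1.1 p.1.2.1) := DD_poly h3.toPoly hs ha
  exact lrn_poly (sel_poly (NPC.Poly.length h2) hD (poss_poly.comp h2) (lits_poly h3)) hs ha
    (UPoly.length (NPC.Poly.snd (NPC.Poly.snd h4))) h2

section

variable {n m : ℕ}

theorem imptt_iff (D : ℕ) (pos : List (List Bool)) (v : ℕ) (hm : 0 < m) :
    imptt m D pos v = true ↔
      (m : ℝ) ≤ D * |(cov pos [(v, true)] : ℝ) - cov pos [(v, false)]| := by
  unfold imptt
  generalize cov pos [(v, true)] = p
  generalize cov pos [(v, false)] = q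
  rw [Bool.or_eq_true, decide_eq_true_iff, decide_eq_true_iff]
  rcases le_total q p with h | h
  · have e : |(p : ℝ) - q| = ((p - q : ℕ) : ℝ) := by
      rw [Nat.cast_sub h, abs_of_nonneg]; rw [sub_nonneg]; exact_mod_cast h
    rw [e, Nat.sub_eq_zero_of_le h]
    have : ¬ m ≤ D * 0 := by omega
    constructor
    · rintro (h1 | h1)
      · exact_mod_cast h1
      · exact absurd h1 this
    · intro h1
      left
      exact_mod_cast h1
  · have e : |(p : ℝ) - q| = ((q - p : ℕ) : ℝ) := by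
      rw [Nat.cast_sub h, abs_sub_comm, abs_of_nonneg]; rw [sub_nonneg]; exact_mod_cast h
    rw [e, Nat.sub_eq_zero_of_le h]
    have : ¬ m ≤ D * 0 := by omega
    constructor
    · rintro (h1 | h1)
      · exact absurd h1 this
      · exact_mod_cast h1
    · intro h1
      right
      exact_mod_cast h1

theorem rest_nil (pos : List (List Bool)) : rest pos [] = pos := by
  unfold rest dnfVal
  simp

theorem emp_lit {R : ℕ} {F : List (List (ℕ × Bool))} {X : Fin m → Cube n} {τ : ℝ}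
    (hgood : GoodS X (ff n F) R τ) (i : Fin n) (b : Bool) :
    |(cov (poss (smp F X)) [((i : ℕ), b)] : ℝ) - m * PP (fun x => ff n F x ∧ x i = b)| ≤
      m * τ := by
  have h := pos_close hgood (H := []) (by simp) (by simp) [((i : ℕ), b)] (by
    intro l hl
    rw [List.mem_singleton.1 hl]; exact i.2)
  rw [rest_nil] at h
  have e : PP (fun x : Cube n => (ff n F x ∧ ¬ ff n [] x) ∧ satL (UU n [((i : ℕ), b)]) x) =
      PP (fun x => ff n F x ∧ x i = b) := by
    refine PP_congr fun x => ?_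
    have h1 : ¬ ff n [] x := by unfold ff dnfVal; simp
    have h2 : satL (UU n [((i : ℕ), b)]) x ↔ x i = b := by
      have h3 := UU_cons (i, b) ([] : List (ℕ × Bool))
      have h4 : UU n ([] : List (ℕ × Bool)) = ∅ := by
        ext l; simp [mem_UU]
      simp only at h3
      rw [h3, h4]
      unfold satL
      simp
    rw [h2]
    tauto
  rwa [e] at h

theorem emp_cor {R : ℕ} {F : List (List (ℕ × Bool))} {X : Fin m → Cube n} {τ : ℝ}
    (hgood : GoodS X (ff n F) R τ) (i : Fin n) :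
    |((cov (poss (smp F X)) [((i : ℕ), true)] : ℝ) - cov (poss (smp F X)) [((i : ℕ), false)]) -
      m * cor (ff n F) i true| ≤ 2 * (m * τ) := by
  have h1 := abs_le.1 (emp_lit hgood i true)
  have h2 := abs_le.1 (emp_lit hgood i false)
  unfold cor
  rw [abs_le]
  simp only [Bool.not_true]
  constructor <;> linarith [h1.1, h1.2, h2.1, h2.2]

/-- Important variables have large influence. -/
theorem inf_ge {R D : ℕ} {F : List (List (ℕ × Bool))} {X : Fin m → Cube n} {τ : ℝ}
    (hgood : GoodS X (ff n F) R τ) (hm : 0 < m) (hD : 4 * (D : ℝ) * τ = 1) (i : Fin n)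
    (hi : imptt m D (poss (smp F X)) i = true) : 1 ≤ 2 * D * Inf (ff n F) i := by
  rw [imptt_iff D _ _ hm] at hi
  have hm' : (0 : ℝ) < m := by exact_mod_cast hm
  have h1 := emp_cor hgood i
  set c := cor (ff n F) i true with hc
  set e := (cov (poss (smp F X)) [((i : ℕ), true)] : ℝ) - cov (poss (smp F X)) [((i : ℕ), false)]
  have h2 : |e| ≤ m * |c| + 2 * (m * τ) := by
    have h3 : |e| ≤ |e - m * c| + |m * c| := by
      have := abs_add_le (e - m * c) (m * c)
      rwa [sub_add_cancel] at this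
    rw [abs_mul, abs_of_pos hm'] at h3
    linarith
  have h3 : (m : ℝ) ≤ D * (m * |c| + 2 * (m * τ)) :=
    hi.trans (mul_le_mul_of_nonneg_left h2 (by positivity))
  have h4 : (m : ℝ) * 1 ≤ m * (2 * D * |c|) := by
    have : (D : ℝ) * (m * |c| + 2 * (m * τ)) = m * (D * |c|) + m * (4 * D * τ) / 2 := by ring
    rw [this, hD] at h3
    linarith
  have h5 : 1 ≤ 2 * D * |c| := le_of_mul_le_mul_left h4 hm'
  exact h5.trans (mul_le_mul_of_nonneg_left (abs_cor_le _ i) (by positivity))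

/-- Unimportant variables have small influence. -/
theorem inf_le {R D : ℕ} {F : List (List (ℕ × Bool))} {X : Fin m → Cube n} {τ : ℝ}
    (hgood : GoodS X (ff n F) R τ) (hm : 0 < m) (hD : 4 * (D : ℝ) * τ = 1)
    (hF : ∀ t ∈ F, ∀ l ∈ t, l.1 < n) (hu : Unate F) (i : Fin n)
    (hi : ¬ imptt m D (poss (smp F X)) i = true) : D * Inf (ff n F) i ≤ 3 := by
  rw [imptt_iff D _ _ hm] at hi
  push Not at hi
  have hm' : (0 : ℝ) < m := by exact_mod_cast hm
  have h1 := emp_cor hgood i
  set c := cor (ff n F) i true with hc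
  set e := (cov (poss (smp F X)) [((i : ℕ), true)] : ℝ) - cov (poss (smp F X)) [((i : ℕ), false)]
  have h2 : m * |c| ≤ |e| + 2 * (m * τ) := by
    have h3 : |m * c| ≤ |e - m * c| + |e| := by
      have := abs_add_le (-(e - m * c)) e
      rw [abs_neg] at this
      have h4 : -(e - m * c) + e = m * c := by ring
      rwa [h4] at this
    rw [abs_mul, abs_of_pos hm'] at h3
    linarith
  have h3 : (D : ℝ) * (m * |c|) ≤ D * |e| + D * (2 * (m * τ)) := by
    rw [← mul_add]
    exact mul_le_mul_of_nonneg_left h2 (by positivity)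
  have h4 : (m : ℝ) * (D * |c|) ≤ m * (3 / 2) := by
    have : (D : ℝ) * (2 * (m * τ)) = m * (4 * D * τ) / 2 := by ring
    rw [this, hD] at h3
    linarith
  have h5 : D * |c| ≤ 3 / 2 := le_of_mul_le_mul_left h4 hm'
  have h6 := Inf_le_abs F hF hu i
  have h7 : (D : ℝ) * Inf (ff n F) i ≤ D * (2 * |c|) := mul_le_mul_of_nonneg_left h6 (by positivity)
  linarith

/-- There are few important variables. -/
theorem sel_length {R D s : ℕ} {F : List (List (ℕ × Bool))} {X : Fin m → Cube n} {τ : ℝ}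
    (hgood : GoodS X (ff n F) R τ) (hm : 0 < m) (hD : 4 * (D : ℝ) * τ = 1)
    (hF : ∀ t ∈ F, ∀ l ∈ t, l.1 < n) (hs : F.length ≤ s) :
    (sel m D (poss (smp F X)) (lits n)).length ≤ 2 * (s * Nat.log 2 (4 * s * D)) := by
  classical
  set ls := sel m D (poss (smp F X)) (lits n) with hls
  set W := Nat.log 2 (4 * s * D) with hW
  have hlt : ∀ l ∈ ls, l.1 < n := fun l hl => lits_lt n l (List.mem_of_mem_filter hl)
  have hnd : ls.Nodup := (lits_nodup n).filter _
  refine (length_le_UU ls hnd hlt).trans ?_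
  set V : Finset (Fin n) := univ.filter fun i : Fin n => imptt m D (poss (smp F X)) i = true with hV
  have h1 : UU n ls ⊆ V ×ˢ (univ : Finset Bool) := by
    intro l hl
    have h2 := (mem_UU ls l).1 hl
    rw [mem_product]
    refine ⟨mem_filter.2 ⟨mem_univ _, ?_⟩, mem_univ _⟩
    exact (List.mem_filter.1 h2).2
  have h2 : (UU n ls).card ≤ V.card * 2 := by
    refine (card_le_card h1).trans ?_
    rw [card_product]; simp
  have hD0 : (0 : ℝ) < D := by
    by_contra h
    have : (D : ℝ) = 0 := le_antisymm (not_lt.1 h) (Nat.cast_nonneg _)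
    rw [this] at hD; simp at hD
  have h3 : V ⊆ (F.toFinset.filter fun t => (vars (UU n t)).card ≤ W).biUnion
      fun t => vars (UU n t) := by
    intro i hi
    have h4 := inf_ge hgood hm hD i (mem_filter.1 hi).2
    have h5 : 1 / (2 * (D : ℝ)) ≤ Inf (ff n F) i := by
      rw [div_le_iff₀ (by positivity)]; linarith
    obtain ⟨t, ht, hit, h6⟩ := short_term F hF i s hs (1 / (2 * D)) (by positivity) h5
    refine mem_biUnion.2 ⟨t, mem_filter.2 ⟨List.mem_toFinset.2 ht, ?_⟩, hit⟩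
    have h7 : (2 : ℝ) ^ (vars (UU n t)).card ≤ 4 * s * D := by
      rw [one_div, inv_mul_le_iff₀ (by positivity)] at h6
      linarith
    have h8 : 2 ^ (vars (UU n t)).card ≤ 4 * s * D := by exact_mod_cast h7
    exact Nat.le_log_of_pow_le (by norm_num) h8
  have h4 : V.card ≤ s * W := by
    refine (card_le_card h3).trans ?_
    refine (card_biUnion_le_card_mul _ _ W fun t ht => (mem_filter.1 ht).2).trans ?_
    refine Nat.mul_le_mul_right _ ?_
    exact (card_filter_le _ _).trans ((List.toFinset_card_le F).trans hs)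
  omega

end

/-! ### Arithmetic -/

theorem num_mB (n s a b m e : ℕ) (he : 41 ≤ e) (ha : 1 ≤ a) (hb : 1 ≤ b)
    (hm : (n + s + a + b) ^ e ≤ m) :
    2 * (4 * DD n s a) ^ 2 * ((8 * (s + 1) * a + 1) * (2 * n + 1) + 2 * b) ≤ m := by
  unfold DD
  have hs : s + 1 ≤ n + s + a + b := by omega
  have haq : a ≤ n + s + a + b := by omega
  have hbq : b ≤ n + s + a + b := by omega
  have hnq : n + 1 ≤ n + s + a + b := by omega
  have hq2 : 2 ≤ n + s + a + b := by omega
  generalize n + s + a + b = q at *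
  have hm' : q ^ 41 ≤ m := (Nat.pow_le_pow_right (by omega) he).trans hm
  have h1 : (8 * (s + 1) * a + 1) * (2 * n + 1) + 2 * b ≤ 32 * q ^ 3 := by
    have h2 : 8 * (s + 1) * a + 1 ≤ 9 * q ^ 2 := by
      have : (s + 1) * a ≤ q * q := Nat.mul_le_mul hs haq
      nlinarith
    have h3 : 2 * n + 1 ≤ 3 * q := by omega
    have h4 := Nat.mul_le_mul h2 h3
    have h5 : q ≤ q ^ 3 := by nlinarith
    calc (8 * (s + 1) * a + 1) * (2 * n + 1) + 2 * b ≤ 9 * q ^ 2 * (3 * q) + 2 * q := by omega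
      _ = 27 * q ^ 3 + 2 * q := by ring
      _ ≤ _ := by omega
  have h2 : 4 * (1024 * (n + 1) * (s + 1) * (a * a)) ≤ 4096 * q ^ 4 := by
    calc 4 * (1024 * (n + 1) * (s + 1) * (a * a)) ≤ 4 * (1024 * q * q * (q * q)) := by gcongr
      _ = 4096 * q ^ 4 := by ring
  have h3 : 2 ^ 30 ≤ q ^ 30 := Nat.pow_le_pow_left hq2 30
  calc 2 * (4 * (1024 * (n + 1) * (s + 1) * (a * a))) ^ 2 *
        ((8 * (s + 1) * a + 1) * (2 * n + 1) + 2 * b) ≤
        2 * (4096 * q ^ 4) ^ 2 * (32 * q ^ 3) := by gcongr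
    _ = 2 ^ 30 * q ^ 11 := by ring
    _ ≤ q ^ 30 * q ^ 11 := Nat.mul_le_mul_right _ h3
    _ = q ^ 41 := by ring
    _ ≤ m := hm'

theorem quad_exp (t : ℕ) : (2 * t + 3) * (3 * t + 5) ≤ 20 * 2 ^ t := by
  rcases Nat.eq_zero_or_pos t with rfl | ht
  · norm_num
  · induction t, ht using Nat.le_induction with
    | base => norm_num
    | succ t ht ih =>
      have ht1 : 1 ≤ t := ht
      rw [pow_succ]
      have h1 : (2 * (t + 1) + 3) * (3 * (t + 1) + 5) ≤ 2 * ((2 * t + 3) * (3 * t + 5)) := by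
        nlinarith
      calc _ ≤ _ := h1
        _ ≤ 2 * (20 * 2 ^ t) := Nat.mul_le_mul_left _ ih
        _ = _ := by ring

theorem caseB (N W k e : ℕ) (he : 680 ≤ e) (hN : 2 ≤ N) (hW : W ≤ 17 * (Nat.log 2 N + 1))
    (hk : k ≤ 3 * Nat.log 2 W + 5) : (2 * W ^ 2) ^ k ≤ N ^ e := by
  set y := Nat.log 2 N + 1 with hy
  set t := Nat.log 2 (17 * y) with ht
  have h17 : 17 * y < 2 ^ (t + 1) := Nat.lt_pow_succ_log_self (by norm_num) _
  have h17' : 2 ^ t ≤ 17 * y := Nat.pow_log_le_self 2 (by omega)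
  have hWt : W ≤ 2 ^ (t + 1) := by omega
  have hlog : Nat.log 2 W ≤ t := Nat.log_mono_right hW
  have h1 : 2 * W ^ 2 ≤ 2 ^ (2 * t + 3) := by
    calc 2 * W ^ 2 ≤ 2 * (2 ^ (t + 1)) ^ 2 := by gcongr
      _ = 2 ^ (2 * t + 3) := by ring
  have h2 : (2 * W ^ 2) ^ k ≤ 2 ^ (20 * 2 ^ t) := by
    refine pow_chain _ 2 (2 * t + 3) k _ (by norm_num) h1 ?_
    refine le_trans (Nat.mul_le_mul_left _ (hk.trans (by omega : _ ≤ 3 * t + 5))) (quad_exp t)
  have h3 : 2 ^ y ≤ N ^ 2 := by
    rw [hy, pow_succ]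
    have h4 : 2 ^ Nat.log 2 N ≤ N := Nat.pow_log_le_self 2 (by omega)
    nlinarith
  have h4 : 20 * 2 ^ t ≤ y * 340 := by omega
  calc (2 * W ^ 2) ^ k ≤ 2 ^ (20 * 2 ^ t) := h2
    _ ≤ 2 ^ (y * 340) := Nat.pow_le_pow_right (by norm_num) h4
    _ = (2 ^ y) ^ 340 := by rw [pow_mul]
    _ ≤ N ^ e := pow_chain _ _ 2 340 e (by omega) h3 (by omega)

theorem caseA (N s k : ℕ) (hN : 2 ≤ N) (hs : 1 ≤ s) (hsN : s ≤ N) (hk : k ≤ 3 * Nat.log 2 s + 8) :
    (3 * s ^ 2) ^ k ≤ N ^ 38 * s ^ (6 * Nat.log 2 s) := by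
  have h1 : 3 ^ k ≤ 2 ^ 16 * s ^ 6 := by
    calc 3 ^ k ≤ 4 ^ k := Nat.pow_le_pow_left (by norm_num) k
      _ = 2 ^ (2 * k) := by rw [pow_mul]; norm_num
      _ ≤ 2 ^ (16 + Nat.log 2 s * 6) := Nat.pow_le_pow_right (by norm_num) (by omega)
      _ = 2 ^ 16 * (2 ^ Nat.log 2 s) ^ 6 := by rw [pow_add, pow_mul]
      _ ≤ 2 ^ 16 * s ^ 6 := by
          gcongr
          exact Nat.pow_log_le_self 2 (by omega)
  have h2 : s ^ (2 * k) ≤ s ^ (16 + 6 * Nat.log 2 s) := Nat.pow_le_pow_right hs (by omega)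
  calc (3 * s ^ 2) ^ k = 3 ^ k * s ^ (2 * k) := by rw [mul_pow, ← pow_mul]
    _ ≤ (2 ^ 16 * s ^ 6) * s ^ (16 + 6 * Nat.log 2 s) := Nat.mul_le_mul h1 h2
    _ = 2 ^ 16 * s ^ 6 * (s ^ 16 * s ^ (6 * Nat.log 2 s)) := by rw [pow_add]
    _ ≤ N ^ 16 * N ^ 6 * (N ^ 16 * s ^ (6 * Nat.log 2 s)) := by gcongr
    _ = N ^ 38 * s ^ (6 * Nat.log 2 s) := by ring

theorem num_BB (n s a B L e : ℕ) (he : 700 ≤ e) (ha : 1 ≤ a)
    (hL : L ≤ 2 * (s * Nat.log 2 (4 * s * DD n s a)))
    (hB : (n + s + a + 1) ^ e * s ^ (e * Nat.log 2 s) ≤ B) :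
    (L + 1) ^ (3 * Nat.log 2 (s + 1) + 5) ≤ B ∧ (4 * a * (s + 1)) ^ 128 ≤ B := by
  have hs1 : 1 ≤ s ^ (e * Nat.log 2 s) := by
    rcases Nat.eq_zero_or_pos s with rfl | hs
    · simp
    · exact Nat.one_le_pow _ _ hs
  have hN2 : 2 ≤ n + s + a + 1 := by omega
  have hDD : 4 * s * DD n s a ≤ (n + s + a + 1) ^ 17 := by
    unfold DD
    have h1 : n + 1 ≤ n + s + a + 1 := by omega
    have h2 : s + 1 ≤ n + s + a + 1 := by omega
    have h3 : a ≤ n + s + a + 1 := by omega
    have h4 : s ≤ n + s + a + 1 := by omega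
    generalize n + s + a + 1 = N at *
    have h5 : 2 ^ 12 ≤ N ^ 12 := Nat.pow_le_pow_left hN2 12
    calc 4 * s * (1024 * (n + 1) * (s + 1) * (a * a)) ≤ 4 * N * (1024 * N * N * (N * N)) := by
          gcongr
      _ = 2 ^ 12 * N ^ 5 := by ring
      _ ≤ N ^ 12 * N ^ 5 := Nat.mul_le_mul_right _ h5
      _ = N ^ 17 := by ring
  have hlog := log_succ_le s
  have ha' : a ≤ n + s + a + 1 := by omega
  have hs' : s + 1 ≤ n + s + a + 1 := by omega
  generalize n + s + a + 1 = N at *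
  constructor
  · rcases Nat.eq_zero_or_pos s with rfl | hs
    · have : L = 0 := by simpa using hL
      subst this
      simp only [zero_add, one_pow]
      refine le_trans ?_ hB
      exact Nat.mul_pos (Nat.pow_pos (by omega)) hs1
    · set W := Nat.log 2 (4 * s * DD n s a) with hW
      have hpos : 4 * s * DD n s a ≠ 0 := by
        unfold DD
        have : 0 < 4 * s * (1024 * (n + 1) * (s + 1) * (a * a)) := by positivity
        omega
      rcases le_or_gt W s with hWs | hWs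
      · have h1 : L + 1 ≤ 3 * s ^ 2 := by
          have : s * W ≤ s * s := Nat.mul_le_mul_left _ hWs
          nlinarith
        refine (Nat.pow_le_pow_left h1 _).trans ?_
        refine (caseA N s _ hN2 hs (by omega) (by omega)).trans (le_trans ?_ hB)
        refine Nat.mul_le_mul (Nat.pow_le_pow_right (by omega) (by omega)) ?_
        exact Nat.pow_le_pow_right hs (Nat.mul_le_mul_right _ (by omega))
      · have h1 : L + 1 ≤ 2 * W ^ 2 := by
          have : s * W + W ≤ W * W := by nlinarith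
          nlinarith
        have hWy : W ≤ 17 * (Nat.log 2 N + 1) := by
          have h2 : 2 ^ W ≤ N ^ 17 := (Nat.pow_log_le_self 2 hpos).trans hDD
          have h3 : N < 2 ^ (Nat.log 2 N + 1) := Nat.lt_pow_succ_log_self (by norm_num) _
          have h4 : N ^ 17 ≤ (2 ^ (Nat.log 2 N + 1)) ^ 17 := Nat.pow_le_pow_left h3.le 17
          rw [← pow_mul] at h4
          have h5 := (Nat.pow_le_pow_iff_right (by norm_num : 1 < 2)).1 (h2.trans h4)
          omega
        have hk : 3 * Nat.log 2 (s + 1) + 5 ≤ 3 * Nat.log 2 W + 5 := by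
          have : Nat.log 2 (s + 1) ≤ Nat.log 2 W := Nat.log_mono_right (by omega)
          omega
        refine (Nat.pow_le_pow_left h1 _).trans ?_
        refine (caseB N W _ e (by omega) hN2 hWy hk).trans (le_trans ?_ hB)
        exact Nat.le_mul_of_pos_right _ hs1
  · have h2 : 4 * a * (s + 1) ≤ N ^ 4 := by
      have h4 : 4 ≤ N ^ 2 := by nlinarith
      calc 4 * a * (s + 1) ≤ N ^ 2 * N * N := Nat.mul_le_mul (Nat.mul_le_mul h4 ha') hs'
        _ = N ^ 4 := by ring
    have h3 : (4 * a * (s + 1)) ^ 128 ≤ N ^ e :=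
      pow_chain _ _ 4 128 e (by omega) h2 (by omega)
    exact h3.trans ((Nat.le_mul_of_pos_right _ hs1).trans hB)

/-! ### The main theorem -/

/-- The terms of a formula after fixing the variables in `S`. -/
theorem fixed_terms {n : ℕ} (F : List (List (ℕ × Bool))) (hF : ∀ t ∈ F, ∀ l ∈ t, l.1 < n)
    (S : Finset (Fin n)) (z : Cube n) : ∃ Ts : Finset (Finset (Fin n × Bool)),
    Ts.card ≤ F.length ∧ (∀ x, ff n F (mix S x z) ↔ ∃ T ∈ Ts, satL T x) ∧
    ∀ T ∈ Ts, ∀ l ∈ T, l.1 ∉ S := by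
  classical
  refine ⟨((F.filter fun t => decide (∀ l ∈ UU n t, l.1 ∈ S → z l.1 = l.2)).map fun t =>
    (UU n t).filter fun l => l.1 ∉ S).toFinset, ?_, ?_, ?_⟩
  · refine (List.toFinset_card_le _).trans ?_
    rw [List.length_map]
    exact List.length_filter_le _ _
  · intro x
    rw [ff_iff F hF]
    have key : ∀ t : List (ℕ × Bool), satL (UU n t) (mix S x z) ↔
        (∀ l ∈ UU n t, l.1 ∈ S → z l.1 = l.2) ∧ satL ((UU n t).filter fun l => l.1 ∉ S) x := by
      intro t
      unfold satL mix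
      constructor
      · intro h
        refine ⟨fun l hl hlS => ?_, fun l hl => ?_⟩
        · have := h l hl
          rwa [if_pos hlS] at this
        · obtain ⟨h1, h2⟩ := mem_filter.1 hl
          have := h l h1
          rwa [if_neg h2] at this
      · rintro ⟨h1, h2⟩ l hl
        by_cases hlS : l.1 ∈ S
        · rw [if_pos hlS]; exact h1 l hl hlS
        · rw [if_neg hlS]; exact h2 l (mem_filter.2 ⟨hl, hlS⟩)
    constructor
    · rintro ⟨t, ht, h⟩
      obtain ⟨h1, h2⟩ := (key t).1 h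
      exact ⟨_, List.mem_toFinset.2 (List.mem_map.2 ⟨t, List.mem_filter.2
        ⟨ht, decide_eq_true_iff.2 h1⟩, rfl⟩), h2⟩
    · rintro ⟨T, hT, h⟩
      obtain ⟨t, ht, rfl⟩ := List.mem_map.1 (List.mem_toFinset.1 hT)
      obtain ⟨h1, h2⟩ := List.mem_filter.1 ht
      exact ⟨t, h1, (key t).2 ⟨decide_eq_true_iff.1 h2, h⟩⟩
  · intro T hT l hl
    obtain ⟨t, _, rfl⟩ := List.mem_map.1 (List.mem_toFinset.1 hT)
    exact (mem_filter.1 hl).2

theorem mainB_aux (e : ℕ) (he : 700 ≤ e) (n s a b : ℕ) (F : List (List (ℕ × Bool))) (ha : 1 ≤ a)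
    (hb : 1 ≤ b) (hFs : F.length ≤ s) (hF : ∀ t ∈ F, ∀ l ∈ t, l.1 < n) (hu : Unate F) (m : ℕ)
    (pad : (Fin m → Cube n) → List Bool) (hm : (n + s + a + b) ^ e ≤ m)
    (hpad : ∀ X, (n + s + a + 1) ^ e * s ^ (e * Nat.log 2 s) ≤ (pad X).length)
    (A : List (List Bool × Bool) → List (List (ℕ × Bool)))
    (hA : ∀ X, A (smp F X) = learnB ((s, a, pad X), smp F X)) :
    Succeeds A n m F (1 / a) (1 / b) := by
  classical
  obtain ⟨m1, m2, _⟩ := num_m n s a b m e (by omega) ha hb hm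
  have m3 := num_mB n s a b m e (by omega) ha hb hm
  have hm0 : 0 < m := by
    have : 0 < 8 * (s + 1) * a := by positivity
    omega
  have ha' : (1 : ℝ) ≤ a := by exact_mod_cast ha
  have hτ0 := tau_pos s a ha
  set R := 8 * (s + 1) * a with hR
  have hDpos : 0 < DD n s a := by unfold DD; positivity
  have hDpos' : (0 : ℝ) < DD n s a := by exact_mod_cast hDpos
  set τ₂ : ℝ := 1 / (4 * DD n s a) with hτ₂
  have hτ₂0 : 0 < τ₂ := by positivity
  have hD4 : 4 * (DD n s a : ℝ) * τ₂ = 1 := by rw [hτ₂]; field_simp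
  have hτm : ((R : ℝ) + 1) * (2 * n + 1) + 2 * b ≤ m * τ₂ ^ 2 / 2 := by
    have h1 : (2 * (4 * (DD n s a : ℝ)) ^ 2 * (((R : ℝ) + 1) * (2 * n + 1) + 2 * b)) ≤ m := by
      exact_mod_cast m3
    rw [hτ₂, one_div, inv_pow, ← div_eq_mul_inv, div_div, le_div_iff₀ (by positivity)]
    linarith
  have hDD : (DD n s a : ℝ) = 1024 * (n + 1) * (s + 1) * (a * a) := by
    unfold DD; push_cast; ring
  have hτle : τ₂ ≤ tau s a := by
    rw [hτ₂]
    unfold tau
    refine one_div_le_one_div_of_le (by positivity) ?_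
    rw [hDD]
    have h1 : (0 : ℝ) ≤ ((s : ℝ) + 1) * (a * a) := by positivity
    have h2 : (0 : ℝ) ≤ n * (((s : ℝ) + 1) * (a * a)) := by positivity
    nlinarith
  refine (samp m b R (ff n F) τ₂ hb hτ₂0 hτm).trans ?_
  refine Nat.cast_le.2 (card_le_card fun X hX => ?_)
  simp only [mem_filter, mem_univ, true_and] at hX ⊢
  have hgood : GoodS X (ff n F) R (tau s a) := fun q =>
    (hX q).trans (mul_le_mul_of_nonneg_left hτle (Nat.cast_nonneg _))
  set ls := sel m (DD n s a) (poss (smp F X)) (lits n) with hls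
  obtain ⟨b1, b2⟩ := num_BB n s a (pad X).length ls.length e he ha
    (sel_length hX hm0 hD4 hF hFs) (hpad X)
  set S : Finset (Fin n) :=
    univ.filter fun i : Fin n => ¬ imptt m (DD n s a) (poss (smp F X)) i = true with hSdef
  obtain ⟨z, hz⟩ := exists_fix (ff n F) S
  obtain ⟨Ts, hT1, hT2, hT3⟩ := fixed_terms F hF S z
  have hη : PP (fun x => ¬ (ff n F x ↔ ff n F (mix S x z))) ≤ tau s a := by
    refine hz.trans ?_
    have h1 : ∀ i ∈ S, Inf (ff n F) i ≤ 3 / DD n s a := by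
      intro i hi
      rw [le_div_iff₀ hDpos', mul_comm]
      exact inf_le hX hm0 hD4 hF hu i (mem_filter.1 hi).2
    refine (sum_le_sum h1).trans ?_
    rw [sum_const, nsmul_eq_mul]
    have h2 : (S.card : ℝ) ≤ n := by
      have := card_le_univ S
      rw [Fintype.card_fin] at this
      exact_mod_cast this
    calc (S.card : ℝ) * (3 / DD n s a) ≤ n * (3 / DD n s a) :=
          mul_le_mul_of_nonneg_right h2 (by positivity)
      _ ≤ tau s a := by
          rw [hDD]
          unfold tau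
          rw [← mul_div_assoc, div_le_div_iff₀ (by positivity) (by positivity)]
          have h1 : (0 : ℝ) ≤ ((s : ℝ) + 1) * (a * a) := by positivity
          have h2 : (0 : ℝ) ≤ n * (((s : ℝ) + 1) * (a * a)) := by positivity
          nlinarith
  have hS : Sit n m F X ls Ts (fun x => ff n F (mix S x z)) (s + 1) a m (pad X).length R
      (tau s a) := by
    refine ⟨by omega, ha, hm0, fun l hl => lits_lt n l (List.mem_of_mem_filter hl),
      (lits_nodup n).filter _, by omega, hT2, ?_, ?_, ?_, ?_, hgood, m2, b1, b2⟩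
    · intro T hT l hl
      refine List.mem_filter.2 ⟨mem_lits n _ l.1.2, ?_⟩
      have h1 := hT3 T hT l hl
      rw [hSdef, mem_filter] at h1
      by_contra h2
      exact h1 ⟨mem_univ _, h2⟩
    · unfold tau
      push_cast
      field_simp
    · refine le_trans (PP_mono fun x hx => ?_) hη
      exact fun h => hx.2 (h.1 hx.1)
    · refine le_trans (PP_mono fun x hx => ?_) hη
      exact fun h => hx.2 (h.2 hx.1)
  have hfin := hS.final hR
  have e1 : examples F X = smp F X := rfl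
  have e2 : (smp F X).length = m := by unfold smp; simp
  have e3 : learnB ((s, a, pad X), smp F X) =
      run R m (pad X).length (128 * (s + 1) * (a * a)) m (poss (smp F X)) (negs (smp F X))
        ls := by
    unfold learnB lrn
    simp only [nvars_smp F X hm0, e2]
    rw [min_eq_left m1]
  rw [e1, hA, e3]
  exact hfin

/-- Unate DNF formulas with `s` terms are learnable in time `poly(n, 1/ε) * s ^ O(log s)`. -/
theorem mainB :
    ∃ A : (ℕ × ℕ × List Bool) × List (List Bool × Bool) → List (List (ℕ × Bool)), PTime A ∧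
      ∃ e : ℕ, ∀ (n s a b : ℕ) (F : List (List (ℕ × Bool))), 1 ≤ a → 1 ≤ b →
        F.length ≤ s → (∀ t ∈ F, ∀ l ∈ t, l.1 < n) → Unate F →
        ∀ (m : ℕ) (pad : List Bool), (n + s + a + b) ^ e ≤ m →
          (n + s + a + 1) ^ e * s ^ (e * Nat.log 2 s) ≤ pad.length →
          Succeeds (fun S => A ((s, a, pad), S)) n m F (1 / a) (1 / b) := by
  obtain ⟨e, he⟩ : ∃ e : ℕ, 700 ≤ e := ⟨700, le_rfl⟩
  refine ⟨learnB, PTime.of_poly learnB_poly, e, ?_⟩
  intro n s a b F ha hb hFs hF hu m pad hm hpad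
  exact mainB_aux e he n s a b F ha hb hFs hF hu m (fun _ => pad) hm (fun _ => hpad) _
    (fun _ => rfl)

/-- The learner without padding. -/
def learnC (p : (ℕ × ℕ) × List (List Bool × Bool)) : List (List (ℕ × Bool)) :=
  learnB ((p.1.1, p.1.2, p.2.map (·.2)), p.2)

theorem learnC_poly : Poly learnC := by
  have h1 : Poly (fun p : (ℕ × ℕ) × List (List Bool × Bool) => p.2) := NPC.Poly.snd NPC.Poly.id
  have h2 : Poly (fun p : (ℕ × ℕ) × List (List Bool × Bool) => p.2.map (·.2)) :=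
    NPC.Poly.map (F := fun _ (e : List Bool × Bool) => e.2) h1
      (NPC.Poly.snd (NPC.Poly.snd NPC.Poly.id))
  have h3 : Poly (fun p : (ℕ × ℕ) × List (List Bool × Bool) => p.1) := NPC.Poly.fst NPC.Poly.id
  exact learnB_poly.comp (NPC.Poly.pair (NPC.Poly.pair (NPC.Poly.fst h3) (NPC.Poly.pair
    (NPC.Poly.snd h3) h2)) h1)

/-- Unate DNF formulas with at most `2 ^ O(√(log n))` terms are learnable in polynomial time. -/
theorem mainC :
    ∃ A : (ℕ × ℕ) × List (List Bool × Bool) → List (List (ℕ × Bool)), PTime A ∧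
      ∀ C : ℕ, ∃ e : ℕ, ∀ (n s a b : ℕ) (F : List (List (ℕ × Bool))), 1 ≤ a → 1 ≤ b →
        F.length ≤ s → (∀ t ∈ F, ∀ l ∈ t, l.1 < n) → Unate F →
        Nat.log 2 s ^ 2 ≤ C * Nat.log 2 (n + a + 1) →
        ∀ m : ℕ, (n + s + a + b) ^ e ≤ m →
          Succeeds (fun S => A ((s, a), S)) n m F (1 / a) (1 / b) := by
  obtain ⟨e, he⟩ : ∃ e : ℕ, 700 ≤ e := ⟨700, le_rfl⟩
  refine ⟨learnC, PTime.of_poly learnC_poly, fun C => ⟨e + 2 * e * C, ?_⟩⟩
  intro n s a b F ha hb hFs hF hu hsC m hm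
  have hq : 1 ≤ n + s + a + b := by omega
  have h0 : (n + s + a + b) ^ e ≤ m :=
    (Nat.pow_le_pow_right hq (Nat.le_add_right e (2 * e * C))).trans hm
  refine mainB_aux e he n s a b F ha hb hFs hF hu m (fun X => (smp F X).map (·.2))
    h0 (fun X => ?_) (fun S => learnC ((s, a), S)) (fun X => by unfold learnC; rfl)
  have h1 : ((smp F X).map (·.2)).length = m := by unfold smp; simp
  rw [h1]
  refine le_trans ?_ hm
  rw [pow_add]
  refine Nat.mul_le_mul (Nat.pow_le_pow_left (by omega) _) ?_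
  have h2 : s ^ (e * Nat.log 2 s) ≤ (n + a + 1) ^ (2 * e * C) := by
    rcases Nat.eq_zero_or_pos (Nat.log 2 s) with h0 | h0
    · rw [h0, mul_zero, pow_zero]
      exact Nat.one_le_pow _ _ (by omega)
    · have h3 : s ≤ 2 ^ (Nat.log 2 s + 1) := (Nat.lt_pow_succ_log_self (by norm_num) _).le
      have h4 : s ^ (e * Nat.log 2 s) ≤ 2 ^ (Nat.log 2 (n + a + 1) * (2 * e * C)) := by
        refine pow_chain _ _ (Nat.log 2 s + 1) _ _ (by norm_num) h3 ?_
        calc (Nat.log 2 s + 1) * (e * Nat.log 2 s) ≤ (2 * Nat.log 2 s) * (e * Nat.log 2 s) :=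
              Nat.mul_le_mul_right _ (by omega)
          _ = 2 * e * Nat.log 2 s ^ 2 := by ring
          _ ≤ 2 * e * (C * Nat.log 2 (n + a + 1)) := Nat.mul_le_mul_left _ hsC
          _ = _ := by ring
      refine h4.trans ?_
      rw [pow_mul]
      exact Nat.pow_le_pow_left (Nat.pow_log_le_self 2 (by omega)) _
  exact h2.trans (Nat.pow_le_pow_left (by omega) _)

end Pool.Agent.K9h49.DN
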