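import Pool.Agent.K9h49.DN.Alg

/-!
# One round of the algorithm
-/

namespace Pool.Agent.K9h49.DN

open Finset Pool.Agent.Helper91K9.DL

variable {n m : ℕ}

/-- The list of the terms of `H`, as sets of literals. -/
def hyp (n R : ℕ) (H : List (List (ℕ × Bool))) : Hyp n R := fun i => (H.map (UU n))[(i : ℕ)]?

theorem ff_iff (H : List (List (ℕ × Bool))) (hH : ∀ t ∈ H, ∀ l ∈ t, l.1 < n) (x : Cube n) :
    ff n H x ↔ ∃ t ∈ H, satL (UU n t) x := by
  unfold ff dnfVal
  rw [List.any_eq_true]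
  constructor
  · rintro ⟨t, ht, h⟩
    exact ⟨t, ht, (termVal_iff t (hH t ht) x).1 h⟩
  · rintro ⟨t, ht, h⟩
    exact ⟨t, ht, (termVal_iff t (hH t ht) x).2 h⟩

theorem hyp_iff (R : ℕ) (H : List (List (ℕ × Bool))) (hlen : H.length ≤ R)
    (hH : ∀ t ∈ H, ∀ l ∈ t, l.1 < n) (x : Cube n) :
    (∀ i U, hyp n R H i = some U → ¬ satL U x) ↔ ¬ ff n H x := by
  rw [ff_iff H hH]
  unfold hyp
  constructor
  · rintro h ⟨t, ht, hs⟩
    obtain ⟨i, hi, rfl⟩ := List.getElem_of_mem ht
    refine h ⟨i, by omega⟩ (UU n H[i]) ?_ hs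
    simp [hi]
  · intro h i U hU hs
    rw [List.getElem?_map] at hU
    obtain ⟨t, ht, rfl⟩ := Option.map_eq_some_iff.1 hU
    exact h ⟨t, List.mem_of_getElem? ht, hs⟩

theorem poss_filter (F : List (List (ℕ × Bool))) (X : Fin m → Cube n)
    (p : List Bool → Bool) : ((poss (smp F X)).filter p).length =
      (univ.filter fun j => p (List.ofFn (X j)) = true ∧ ff n F (X j)).card := by
  have h1 : smp F X = (List.finRange m).map fun j =>
      (List.ofFn (X j), dnfVal F (List.ofFn (X j))) := by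
    unfold smp; rw [List.ofFn_eq_map]
  unfold poss
  rw [h1]
  simp only [List.filter_map, List.length_map, List.filter_filter]
  rw [card_filter_fin]
  congr 1
  ext j
  rw [mem_filter, mem_filter]
  simp [ff]

theorem cov_rest (R : ℕ) (F H : List (List (ℕ × Bool))) (X : Fin m → Cube n)
    (hlen : H.length ≤ R) (hH : ∀ t ∈ H, ∀ l ∈ t, l.1 < n) (ρ : List (ℕ × Bool))
    (hρ : ∀ l ∈ ρ, l.1 < n) :
    (cov (rest (poss (smp F X)) H) ρ : ℝ) = fr X (Reg (ff n F) (true, hyp n R H, UU n ρ)) := by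
  classical
  unfold cov rest
  rw [List.filter_filter, poss_filter, fr_eq]
  congr 2
  ext j
  simp only [mem_filter, mem_univ, true_and, Reg, if_true]
  rw [hyp_iff R H hlen hH, Bool.and_eq_true, termVal_iff ρ hρ]
  unfold ff
  simp only [Bool.not_eq_true', Bool.not_eq_true]
  tauto

theorem cov_neg (R : ℕ) (F : List (List (ℕ × Bool))) (X : Fin m → Cube n)
    (ρ : List (ℕ × Bool)) (hρ : ∀ l ∈ ρ, l.1 < n) :
    (cov (negs (smp F X)) ρ : ℝ) = fr X (Reg (ff n F) (false, hyp n R [], UU n ρ)) := by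
  classical
  unfold cov
  rw [negs_filter, fr_eq]
  congr 2
  ext j
  simp only [mem_filter, mem_univ, true_and, Reg, Bool.false_eq_true, if_false]
  rw [hyp_iff R [] (by simp) (by simp), termVal_iff ρ hρ]
  have : ¬ ff n [] (X j) := by unfold ff dnfVal; simp
  tauto

/-- Empirical counts and probabilities, positive points. -/
theorem pos_close {R : ℕ} {F H : List (List (ℕ × Bool))} {X : Fin m → Cube n} {τ : ℝ}
    (hgood : GoodS X (ff n F) R τ) (hlen : H.length ≤ R) (hH : ∀ t ∈ H, ∀ l ∈ t, l.1 < n)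
    (ρ : List (ℕ × Bool)) (hρ : ∀ l ∈ ρ, l.1 < n) :
    |(cov (rest (poss (smp F X)) H) ρ : ℝ) -
      m * PP (fun x => (ff n F x ∧ ¬ ff n H x) ∧ satL (UU n ρ) x)| ≤ m * τ := by
  rw [cov_rest R F H X hlen hH ρ hρ]
  have h := hgood (true, hyp n R H, UU n ρ)
  have e : PP (Reg (ff n F) (true, hyp n R H, UU n ρ)) =
      PP (fun x => (ff n F x ∧ ¬ ff n H x) ∧ satL (UU n ρ) x) := by
    refine PP_congr fun x => ?_
    unfold Reg
    simp only [if_true]
    rw [hyp_iff R H hlen hH, and_assoc]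
  rwa [e] at h

/-- Empirical counts and probabilities, negative points. -/
theorem neg_close {R : ℕ} {F : List (List (ℕ × Bool))} {X : Fin m → Cube n} {τ : ℝ}
    (hgood : GoodS X (ff n F) R τ)
    (ρ : List (ℕ × Bool)) (hρ : ∀ l ∈ ρ, l.1 < n) :
    |(cov (negs (smp F X)) ρ : ℝ) -
      m * PP (fun x => ¬ ff n F x ∧ satL (UU n ρ) x)| ≤ m * τ := by
  rw [cov_neg R F X ρ hρ]
  have h := hgood (false, hyp n R [], UU n ρ)
  have e : PP (Reg (ff n F) (false, hyp n R [], UU n ρ)) =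
      PP (fun x => ¬ ff n F x ∧ satL (UU n ρ) x) := by
    refine PP_congr fun x => ?_
    unfold Reg
    simp only [Bool.false_eq_true, if_false]
    rw [hyp_iff R [] (by simp) (by simp)]
    have : ¬ ff n [] x := by unfold ff dnfVal; simp
    tauto
  rwa [e] at h

/-! ### Lists and sets of literals -/

/-- A list of the literals of a set. -/
noncomputable def toL (U : Finset (Fin n × Bool)) : List (ℕ × Bool) :=
  U.toList.map fun l => ((l.1 : ℕ), l.2)

theorem mem_toL (U : Finset (Fin n × Bool)) (l : ℕ × Bool) :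
    l ∈ toL U ↔ ∃ l' ∈ U, ((l'.1 : ℕ), l'.2) = l := by
  unfold toL; simp [List.mem_map]

theorem UU_toL (U : Finset (Fin n × Bool)) : UU n (toL U) = U := by
  ext ⟨v, b⟩
  rw [mem_UU, mem_toL]
  constructor
  · rintro ⟨⟨v', b'⟩, h1, h2⟩
    simp only [Prod.mk.injEq] at h2
    have : v' = v := Fin.ext h2.1
    rw [← this, ← h2.2]; exact h1
  · intro h; exact ⟨_, h, rfl⟩

theorem toL_lt (U : Finset (Fin n × Bool)) : ∀ l ∈ toL U, l.1 < n := by
  intro l hl
  obtain ⟨l', _, rfl⟩ := (mem_toL U l).1 hl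
  exact l'.1.2

theorem toL_length (U : Finset (Fin n × Bool)) : (toL U).length = U.card := by
  unfold toL; simp

theorem UU_cons (l : Fin n × Bool) (ρ : List (ℕ × Bool)) :
    UU n (((l.1 : ℕ), l.2) :: ρ) = insert l (UU n ρ) := by
  ext ⟨v, b⟩
  rw [mem_UU, mem_insert, mem_UU, List.mem_cons]
  constructor
  · rintro (h | h)
    · left
      simp only [Prod.mk.injEq] at h
      exact Prod.ext (Fin.ext h.1) h.2
    · exact Or.inr h
  · rintro (h | h)
    · left; rw [← h]
    · exact Or.inr h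

theorem length_le_UU (L : List (ℕ × Bool)) (hnd : L.Nodup) (hL : ∀ l ∈ L, l.1 < n) :
    L.length ≤ (UU n L).card := by
  classical
  rw [← List.toFinset_card_of_nodup hnd]
  refine le_trans (card_le_card (t := (UU n L).image fun l => ((l.1 : ℕ), l.2)) fun l hl => ?_)
    card_image_le
  have h1 : l ∈ L := List.mem_toFinset.1 hl
  exact mem_image.2 ⟨(⟨l.1, hL l h1⟩, l.2), (mem_UU L _).2 h1, rfl⟩

theorem satL_insert (l : Fin n × Bool) (U : Finset (Fin n × Bool)) (x : Cube n) :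
    satL (insert l U) x ↔ satL U x ∧ x l.1 = l.2 := by
  unfold satL
  simp [and_comm]

theorem satL_mono {U V : Finset (Fin n × Bool)} (h : U ⊆ V) {x : Cube n} (hx : satL V x) :
    satL U x := fun l hl => hx l (h hl)

/-- What is known about the situation. -/
structure Sit (n m : ℕ) (F : List (List (ℕ × Bool))) (X : Fin m → Cube n)
    (ls : List (ℕ × Bool)) (Ts : Finset (Finset (Fin n × Bool))) (g : Cube n → Prop)
    (s a k B R : ℕ) (τ : ℝ) : Prop where
  hs : 1 ≤ s
  ha : 1 ≤ a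
  hm : 0 < m
  hls : ∀ l ∈ ls, l.1 < n
  hnd : ls.Nodup
  hcard : Ts.card ≤ s
  hg : ∀ x, g x ↔ ∃ T ∈ Ts, satL T x
  hTs : ∀ T ∈ Ts, ∀ l ∈ T, ((l.1 : ℕ), l.2) ∈ ls
  hτ : 256 * (s : ℝ) * (a * a) * τ = 1
  h1 : PP (fun x => ff n F x ∧ ¬ g x) ≤ τ
  h2 : PP (fun x => g x ∧ ¬ ff n F x) ≤ τ
  hgood : GoodS X (ff n F) R τ
  hk : 3 * Nat.log 2 s + 5 ≤ k
  hB1 : (ls.length + 1) ^ (3 * Nat.log 2 s + 5) ≤ B
  hB2 : (4 * a * s) ^ 128 ≤ B

section

variable {F : List (List (ℕ × Bool))} {X : Fin m → Cube n}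
  {ls : List (ℕ × Bool)} {Ts : Finset (Finset (Fin n × Bool))} {g : Cube n → Prop}
  {s a k B R : ℕ} {τ : ℝ}

theorem Sit.τ_pos (h : Sit n m F X ls Ts g s a k B R τ) : 0 < τ := by
  have h1 := h.hτ
  have hs : (1 : ℝ) ≤ s := by exact_mod_cast h.hs
  have ha : (1 : ℝ) ≤ a := by exact_mod_cast h.ha
  by_contra hc
  have h2 : 256 * (s : ℝ) * (a * a) * τ ≤ 0 :=
    mul_nonpos_of_nonneg_of_nonpos (by positivity) (not_lt.1 hc)
  linarith

/-- There is a good candidate. -/
theorem Sit.exists_cand (h : Sit n m F X ls Ts g s a k B R τ) (H : List (List (ℕ × Bool)))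
    (hlen : H.length ≤ R) (hH : ∀ t ∈ H, ∀ l ∈ t, l.1 < n)
    (hM : 1 < 2 * a * PP (fun x => ff n F x ∧ ¬ ff n H x)) :
    ∃ t ∈ cnds k B (128 * s * (a * a)) m (rest (poss (smp F X)) H) (negs (smp F X)) ls,
      64 * τ ≤ PP (fun x => (ff n F x ∧ ¬ ff n H x) ∧ satL (UU n t) x) ∧
      PP (fun x => ff n F x ∧ ¬ ff n H x) ≤
        2 * s * PP (fun x => (ff n F x ∧ ¬ ff n H x) ∧ satL (UU n t) x) := by
  classical
  have hs : (1 : ℝ) ≤ s := by exact_mod_cast h.hs
  have ha : (1 : ℝ) ≤ a := by exact_mod_cast h.ha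
  have hm : (0 : ℝ) < m := by exact_mod_cast h.hm
  have hτ := h.hτ
  have hτ0 := h.τ_pos
  set M := PP (fun x => ff n F x ∧ ¬ ff n H x) with hMdef
  have hM0 : 0 ≤ M := PP_nonneg _
  have hMτ : 2 * τ < M := by
    by_contra hc
    push Not at hc
    have h3 : 2 * (a : ℝ) * M ≤ 2 * a * (2 * τ) := mul_le_mul_of_nonneg_left hc (by positivity)
    have h4 : 2 * (a : ℝ) * (2 * τ) ≤ 256 * (s : ℝ) * (a * a) * τ := by
      have h5 : (4 : ℝ) * a ≤ 256 * s * (a * a) := by
        have : (a : ℝ) * 1 ≤ a * (s * a) :=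
          mul_le_mul_of_nonneg_left (by nlinarith) (by positivity)
        nlinarith
      nlinarith
    linarith
  obtain ⟨T, hT, hTM⟩ := exists_term (ff n F) g (ff n H) Ts s τ h.hs h.hcard h.hg h.h1 hMτ
  set G : Cube n → Prop := fun x => ff n F x ∧ ¬ ff n H x with hG
  obtain ⟨ρ, hρT, hρM, hρl⟩ := greedy G T
  set P := PP (fun x => G x ∧ satL ρ x) with hP
  set PT := PP (fun x => G x ∧ satL T x) with hPT
  have hPTP : PT ≤ P := PP_mono fun x hx => ⟨hx.1, satL_mono hρT hx.2⟩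
  have hTM' : M ≤ 2 * s * PT := hTM
  -- the size of the parts
  have h64 : 64 * τ ≤ PT := by
    have h3 : 1 < 4 * (a : ℝ) * s * PT := by
      have : 2 * (a : ℝ) * M ≤ 2 * a * (2 * s * PT) := mul_le_mul_of_nonneg_left hTM' (by positivity)
      nlinarith
    by_contra hc
    push Not at hc
    have h4 : 4 * (a : ℝ) * s * PT ≤ 4 * a * s * (64 * τ) :=
      mul_le_mul_of_nonneg_left hc.le (by positivity)
    have h5 : 4 * (a : ℝ) * s * (64 * τ) ≤ 256 * (s : ℝ) * (a * a) * τ := by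
      have : (a : ℝ) * (s * τ) ≤ (a * a) * (s * τ) :=
        mul_le_mul_of_nonneg_right (by nlinarith) (by positivity)
      nlinarith
    linarith
  have hP0 : 0 < P := by linarith
  have hN : (1 : ℝ) ≤ (4 * a * s : ℕ) * P := by
    push_cast
    have h3 : 2 * (a : ℝ) * M ≤ 2 * a * (2 * s * P) :=
      mul_le_mul_of_nonneg_left (hTM'.trans (mul_le_mul_of_nonneg_left hPTP (by positivity)))
        (by positivity)
    nlinarith
  have hcρ : ρ.card ≤ 3 * Nat.log 2 s + 5 := by
    refine card_restr s ρ.card h.hs ?_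
    have h3 : P ≤ (3 / 4) ^ ρ.card * (2 * s * P) :=
      hρM.trans (mul_le_mul_of_nonneg_left
        (hTM'.trans (mul_le_mul_of_nonneg_left hPTP (by positivity))) (by positivity))
    have h4 : 1 * P ≤ (2 * s * (3 / 4) ^ ρ.card) * P := by linarith
    exact le_of_mul_le_mul_right h4 hP0
  -- the restriction is in the list
  have hρlt : ∀ l ∈ toL ρ, l.1 < n := toL_lt ρ
  have hρls : ∀ l ∈ toL ρ, l ∈ ls := by
    intro l hl
    obtain ⟨l', h3, rfl⟩ := (mem_toL ρ l).1 hl
    exact h.hTs T hT l' (hρT h3)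
  have hmem : toL ρ ∈ restr B ls k :=
    mem_restr B ls k _ h.hk h.hB1 (toL ρ) hρls (by rw [toL_length]; exact hcρ)
  set U := rest (poss (smp F X)) H with hU
  set L := frq U ls (toL ρ) with hL
  have hLls : ∀ l ∈ L, l ∈ ls := fun l hl => List.mem_of_mem_filter hl
  have hLlt : ∀ l ∈ L, l.1 < n := fun l hl => h.hls l (hLls l hl)
  have hLnd : L.Nodup := h.hnd.filter _
  have c0 := abs_le.1 (pos_close h.hgood hlen hH (toL ρ) hρlt)
  rw [UU_toL] at c0
  have c1 : ∀ l : Fin n × Bool, |(cov U (((l.1 : ℕ), l.2) :: toL ρ) : ℝ) -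
      m * PP (fun x => G x ∧ satL (insert l ρ) x)| ≤ m * τ := by
    intro l
    have h3 := pos_close h.hgood hlen hH (((l.1 : ℕ), l.2) :: toL ρ) (by
      intro l' hl'
      rcases List.mem_cons.1 hl' with rfl | hl'
      · exact l.1.2
      · exact hρlt l' hl')
    rw [UU_cons, UU_toL] at h3
    exact h3
  -- the literals of `T` are frequent
  have hTL : ∀ l ∈ T, ((l.1 : ℕ), l.2) ∈ L := by
    intro l hl
    rw [hL, frq, List.mem_filter]
    refine ⟨h.hTs T hT l hl, ?_⟩
    rw [decide_eq_true_iff]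
    have h3 := hρl l hl
    have h4 := abs_le.1 (c1 l)
    have h5 : (5 * cov U (toL ρ) : ℝ) ≤ 8 * cov U (((l.1 : ℕ), l.2) :: toL ρ) := by
      have h6 : (m : ℝ) * (3 / 4 * P) ≤ m * PP (fun x => G x ∧ satL (insert l ρ) x) :=
        mul_le_mul_of_nonneg_left h3 hm.le
      have h7 : (m : ℝ) * (13 * τ) ≤ m * P := mul_le_mul_of_nonneg_left (by linarith) hm.le
      linarith [c0.2, h4.1]
    exact_mod_cast h5
  -- there are few frequent literals
  have hfew : 2 ^ L.length ≤ B := by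
    refine le_trans ?_ h.hB2
    refine le_trans (Nat.pow_le_pow_right (by norm_num) (length_le_UU L hLnd hLlt)) ?_
    refine few_two (fun x => G x ∧ satL ρ x) (UU n L) (4 * a * s) hN fun l hl => ?_
    have h3 := (mem_UU L l).1 hl
    rw [hL, frq, List.mem_filter, decide_eq_true_iff] at h3
    have h4 := abs_le.1 (c1 l)
    have h5 : (5 * cov U (toL ρ) : ℝ) ≤ 8 * cov U (((l.1 : ℕ), l.2) :: toL ρ) := by
      exact_mod_cast h3.2
    have h6 : PP (fun x => (G x ∧ satL ρ x) ∧ x l.1 = l.2) =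
        PP (fun x => G x ∧ satL (insert l ρ) x) :=
      PP_congr fun x => by rw [satL_insert, and_assoc]
    rw [h6]
    have h7 : (m : ℝ) * (26 * τ) ≤ m * P := mul_le_mul_of_nonneg_left (by linarith) hm.le
    have h8 : (m : ℝ) * (9 / 16 * P) ≤ m * PP (fun x => G x ∧ satL (insert l ρ) x) := by
      linarith [c0.1, h4.2]
    exact le_of_mul_le_mul_left h8 hm
  obtain ⟨t, ht, ht2⟩ := mem_subs B L hfew (fun l => decide (l ∈ toL T))
  have hUt : UU n t = T := by
    ext l
    rw [mem_UU, ht2, decide_eq_true_iff]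
    have h3 := mem_UU (toL T) l
    rw [UU_toL] at h3
    rw [← h3]
    exact ⟨fun h => h.2, fun h => ⟨hTL l h, h⟩⟩
  refine ⟨t, ?_, ?_, ?_⟩
  · unfold cnds
    refine List.mem_flatMap.2 ⟨toL ρ, hmem, List.mem_filter.2 ⟨ht, ?_⟩⟩
    rw [decide_eq_true_iff]
    have htlt : ∀ l ∈ t, l.1 < n := fun l hl => hLlt l ((ht2 l).1 hl).1
    have h3 := abs_le.1 (neg_close h.hgood t htlt)
    rw [hUt] at h3
    have h4 : PP (fun x => ¬ ff n F x ∧ satL T x) ≤ τ :=
      (PP_mono fun x hx => ⟨(h.hg x).2 ⟨T, hT, hx.2⟩, hx.1⟩).trans h.h2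
    have h5 : (cov (negs (smp F X)) t : ℝ) ≤ m * (2 * τ) := by
      have h6 : (m : ℝ) * PP (fun x => ¬ ff n F x ∧ satL T x) ≤ m * τ :=
        mul_le_mul_of_nonneg_left h4 hm.le
      linarith [h3.2]
    have h6 : ((128 * s * (a * a) * cov (negs (smp F X)) t : ℕ) : ℝ) ≤ m := by
      push_cast
      calc 128 * (s : ℝ) * (a * a) * cov (negs (smp F X)) t ≤
            128 * (s : ℝ) * (a * a) * (m * (2 * τ)) :=
              mul_le_mul_of_nonneg_left h5 (by positivity)
        _ = m * (256 * (s : ℝ) * (a * a) * τ) := by ring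
        _ = m := by rw [hτ, mul_one]
    exact_mod_cast h6
  · rw [hUt]; exact h64
  · rw [hUt]; exact hTM'

/-- One round. -/
theorem Sit.round (h : Sit n m F X ls Ts g s a k B R τ) (H : List (List (ℕ × Bool)))
    (hlen : H.length ≤ R) (hH : ∀ t ∈ H, ∀ l ∈ t, l.1 < n) (H' : List (List (ℕ × Bool)))
    (hH' : H' = rnd k B (128 * s * (a * a)) m (poss (smp F X)) (negs (smp F X)) ls H) :
    H'.length ≤ H.length + 1 ∧ (∀ t ∈ H', ∀ l ∈ t, l.1 < n) ∧
    (∀ t ∈ H', t ∈ H ∨ PP (fun x => ¬ ff n F x ∧ satL (UU n t) x) ≤ 3 * τ) ∧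
    (2 * a * PP (fun x => ff n F x ∧ ¬ ff n H' x) ≤ 1 ∨
      PP (fun x => ff n F x ∧ ¬ ff n H' x) ≤
        (1 - 1 / (4 * s)) * PP (fun x => ff n F x ∧ ¬ ff n H x)) := by
  classical
  have hs : (1 : ℝ) ≤ s := by exact_mod_cast h.hs
  have ha : (1 : ℝ) ≤ a := by exact_mod_cast h.ha
  have hm : (0 : ℝ) < m := by exact_mod_cast h.hm
  have hτ := h.hτ
  have hτ0 := h.τ_pos
  subst hH'
  unfold rnd
  set U := rest (poss (smp F X)) H with hU
  set cs := cnds k B (128 * s * (a * a)) m U (negs (smp F X)) ls with hcs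
  obtain ⟨hb, hb2⟩ := best_spec U cs
  have hmono : PP (fun x => ff n F x ∧ ¬ ff n (best U cs ++ H) x) ≤
      PP (fun x => ff n F x ∧ ¬ ff n H x) := by
    refine PP_mono fun x hx => ⟨hx.1, fun hx2 => hx.2 ?_⟩
    unfold ff dnfVal at hx2 ⊢
    rw [List.any_append, hx2, Bool.or_true]
  have hcs1 : ∀ t ∈ cs, ∀ l ∈ t, l.1 < n := fun t ht l hl => h.hls l ((cnds_lits ht).1 l hl)
  have hcs2 : ∀ t ∈ cs, PP (fun x => ¬ ff n F x ∧ satL (UU n t) x) ≤ 3 * τ := by
    intro t ht
    have h3 := abs_le.1 (neg_close h.hgood t (hcs1 t ht))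
    have h4 : ((128 * s * (a * a) * cov (negs (smp F X)) t : ℕ) : ℝ) ≤ m := by
      exact_mod_cast (cnds_lits ht).2
    push_cast at h4
    have h5 : (cov (negs (smp F X)) t : ℝ) ≤ m * (2 * τ) := by
      have h6 : 2 * τ * (128 * (s : ℝ) * (a * a) * cov (negs (smp F X)) t) ≤ 2 * τ * m :=
        mul_le_mul_of_nonneg_left h4 (by positivity)
      have h7 : 2 * τ * (128 * (s : ℝ) * (a * a) * cov (negs (smp F X)) t) =
          (256 * (s : ℝ) * (a * a) * τ) * cov (negs (smp F X)) t := by ring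
      rw [h7, hτ, one_mul] at h6
      linarith
    have h8 : (m : ℝ) * PP (fun x => ¬ ff n F x ∧ satL (UU n t) x) ≤ m * (3 * τ) := by
      linarith [h3.1]
    exact le_of_mul_le_mul_left h8 hm
  by_cases hM : 1 < 2 * a * PP (fun x => ff n F x ∧ ¬ ff n H x)
  · obtain ⟨t, ht, h64, hMt⟩ := h.exists_cand H hlen hH hM
    have htlt := hcs1 t ht
    have h3 := abs_le.1 (pos_close h.hgood hlen hH t htlt)
    have h4 : (cov U t : ℝ) ≤ covD U (best U cs) := by exact_mod_cast hb2 t ht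
    set PT := PP (fun x => (ff n F x ∧ ¬ ff n H x) ∧ satL (UU n t) x) with hPT
    have h5 : (m : ℝ) * (64 * τ) ≤ m * PT := mul_le_mul_of_nonneg_left h64 hm.le
    rcases hb with hb | ⟨c, hc, hb⟩
    · exfalso
      rw [hb] at h4
      have h6 : covD U [] = 0 := by unfold covD dnfVal; simp
      rw [h6] at h4
      have h7 : 0 < (m : ℝ) * τ := by positivity
      push_cast at h4
      linarith [h3.1]
    · rw [hb, cov_one] at h4
      have hclt := hcs1 c hc
      have h6 := abs_le.1 (pos_close h.hgood hlen hH c hclt)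
      set PC := PP (fun x => (ff n F x ∧ ¬ ff n H x) ∧ satL (UU n c) x) with hPC
      have h7 : (m : ℝ) * (PT / 2) ≤ m * PC := by linarith [h3.1, h6.2]
      have h8 : PT / 2 ≤ PC := le_of_mul_le_mul_left h7 hm
      rw [hb]
      refine ⟨by simp, ?_, ?_, Or.inr ?_⟩
      · intro t' ht'
        rcases List.mem_append.1 ht' with ht' | ht'
        · rw [List.mem_singleton.1 ht']; exact hclt
        · exact hH t' ht'
      · intro t' ht'
        rcases List.mem_append.1 ht' with ht' | ht'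
        · right; rw [List.mem_singleton.1 ht']; exact hcs2 c hc
        · exact Or.inl ht'
      · have h9 : PP (fun x => ff n F x ∧ ¬ ff n ([c] ++ H) x) =
            PP (fun x => ff n F x ∧ ¬ ff n H x) - PC := by
          have h10 := PP_and_not (fun x => ff n F x ∧ ¬ ff n H x) (fun x => satL (UU n c) x)
          have h11 : PC = PP (fun x => satL (UU n c) x ∧ (ff n F x ∧ ¬ ff n H x)) :=
            PP_congr fun x => and_comm
          rw [h11, ← h10]
          refine PP_congr fun x => ?_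
          have h12 : ff n ([c] ++ H) x ↔ satL (UU n c) x ∨ ff n H x := by
            unfold ff
            rw [← termVal_iff c hclt x]
            unfold dnfVal
            simp
          rw [h12]
          tauto
        rw [h9]
        have h13 : PP (fun x => ff n F x ∧ ¬ ff n H x) / (4 * s) ≤ PC := by
          rw [div_le_iff₀ (by positivity)]
          have : (s : ℝ) * (PT / 2) ≤ s * PC := mul_le_mul_of_nonneg_left h8 (by positivity)
          linarith
        have h14 : (1 - 1 / (4 * (s : ℝ))) * PP (fun x => ff n F x ∧ ¬ ff n H x) =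
            PP (fun x => ff n F x ∧ ¬ ff n H x) -
              PP (fun x => ff n F x ∧ ¬ ff n H x) / (4 * s) := by ring
        rw [h14]
        linarith
  · push Not at hM
    have hfin : 2 * a * PP (fun x => ff n F x ∧ ¬ ff n (best U cs ++ H) x) ≤ 1 :=
      (mul_le_mul_of_nonneg_left hmono (by positivity)).trans hM
    rcases hb with hb | ⟨c, hc, hb⟩
    · rw [hb] at hfin ⊢
      rw [List.nil_append] at hfin ⊢
      exact ⟨by simp, hH, fun t ht => Or.inl ht, Or.inl hfin⟩
    · rw [hb] at hfin ⊢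
      refine ⟨by simp, ?_, ?_, Or.inl hfin⟩
      · intro t' ht'
        rcases List.mem_append.1 ht' with ht' | ht'
        · rw [List.mem_singleton.1 ht']; exact hcs1 c hc
        · exact hH t' ht'
      · intro t' ht'
        rcases List.mem_append.1 ht' with ht' | ht'
        · right; rw [List.mem_singleton.1 ht']; exact hcs2 c hc
        · exact Or.inl ht'

end

end Pool.Agent.K9h49.DN
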